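import Mathlib

set_option autoImplicit false

open Set Filter Topology
open scoped Real ComplexConjugate

namespace Pool.Agent.Work.MP_5fc0ff_an

/-- the base -/
def sg (H : ℕ) : GaussianInt := ⟨8 * H, 1⟩

/-- number of times -/
def MM (H : ℕ) : ℕ := (64 * H ^ 2 + 1) ^ 3

lemma sg_coprime (H : ℕ) : IsCoprime (sg H) (star (sg H)) := by
  refine ⟨⟨0, 32 * H ^ 2⟩, sg H - ⟨0, 32 * H ^ 2⟩, ?_⟩
  unfold sg
  rw [Zsqrtd.ext_iff]
  simp
  constructor <;> ring

lemma sg_mul_star (H : ℕ) : sg H ^ 3 * star (sg H) ^ 3 = ((MM H : ℕ) : GaussianInt) := by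
  have h1 : sg H * star (sg H) = ((64 * H ^ 2 + 1 : ℕ) : GaussianInt) := by
    rw [Zsqrtd.ext_iff, Zsqrtd.re_natCast, Zsqrtd.im_natCast]
    constructor
    · simp [sg]
      ring
    · simp [sg]
  rw [← mul_pow, h1]
  unfold MM
  push_cast
  ring

lemma exists_p (H : ℕ) (z : GaussianInt) : ∃ p : ℕ, 1 ≤ p ∧ p ≤ MM H ∧
    ∃ q : GaussianInt, 2 * (p : GaussianInt) = z + sg H ^ 3 * q := by
  obtain ⟨u, v, huv⟩ := (sg_coprime H).pow (m := 3) (n := 3)
  set w : GaussianInt := z * v * star (sg H) ^ 3 with hw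
  have h1 : 2 * ((w.re : ℤ) : GaussianInt) = z + sg H ^ 3 * (star z * star v - z * u) := by
    have h2 : 2 * ((w.re : ℤ) : GaussianInt) = w + star w := by
      rw [Zsqrtd.ext_iff]
      simp
      ring
    have h3 : star w = star z * star v * sg H ^ 3 := by
      rw [hw]
      simp [star_mul, mul_comm]
    rw [h2, h3, hw]
    linear_combination (z) * huv
  have hM : 0 < MM H := by unfold MM; positivity
  have hM' : (0 : ℤ) < MM H := by exact_mod_cast hM
  set p : ℤ := (w.re - 1) % (MM H) + 1 with hp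
  have hp1 : 1 ≤ p := by
    have := Int.emod_nonneg (w.re - 1) hM'.ne'
    omega
  have hp2 : p ≤ MM H := by
    have := Int.emod_lt_of_pos (w.re - 1) hM'
    omega
  have hp3 : w.re = p + (MM H) * ((w.re - 1) / (MM H)) := by
    have := Int.emod_add_mul_ediv (w.re - 1) (MM H)
    omega
  refine ⟨p.toNat, by omega, by omega, star z * star v - z * u -
    2 * star (sg H) ^ 3 * (((w.re - 1) / (MM H) : ℤ) : GaussianInt), ?_⟩
  have hp4 : ((p.toNat : ℕ) : GaussianInt) = ((p : ℤ) : GaussianInt) := by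
    have : ((p.toNat : ℕ) : ℤ) = p := Int.toNat_of_nonneg (by omega)
    rw [← this]
    push_cast
    rfl
  have hp5 : ((p : ℤ) : GaussianInt) = ((w.re : ℤ) : GaussianInt) -
      ((MM H : ℕ) : GaussianInt) * (((w.re - 1) / (MM H) : ℤ) : GaussianInt) := by
    have h9 : ((w.re : ℤ) : GaussianInt) =
        ((p + (MM H) * ((w.re - 1) / (MM H)) : ℤ) : GaussianInt) := by rw [← hp3]
    rw [h9]
    push_cast
    ring
  rw [hp4, hp5, ← sg_mul_star]
  linear_combination h1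

/-- rounding -/
lemma exists_round (ξ : ℂ) : ∃ z : GaussianInt, ‖ξ - (z : ℂ)‖ ≤ 1 := by
  refine ⟨⟨round ξ.re, round ξ.im⟩, ?_⟩
  have h1 := abs_sub_round ξ.re
  have h2 := abs_sub_round ξ.im
  have h3 := Complex.norm_le_abs_re_add_abs_im (ξ - ((⟨round ξ.re, round ξ.im⟩ : GaussianInt) : ℂ))
  refine h3.trans ?_
  simp only [Complex.sub_re, Complex.sub_im, GaussianInt.re_toComplex, GaussianInt.im_toComplex]
  linarith

/-- the base as a complex number -/
noncomputable def sc (H : ℕ) : ℂ := (8 * H : ℝ) + Complex.I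

lemma sg_toComplex (H : ℕ) : ((sg H : GaussianInt) : ℂ) = sc H := by
  rw [GaussianInt.toComplex_def]
  unfold sg sc
  push_cast
  ring

lemma sc_normSq (H : ℕ) : ‖sc H‖ ^ 2 = 64 * (H : ℝ) ^ 2 + 1 := by
  rw [← Complex.normSq_eq_norm_sq, Complex.normSq_apply]
  unfold sc
  simp
  ring

lemma sc_norm_ge (H : ℕ) : 8 * (H : ℝ) ≤ ‖sc H‖ := by
  have h1 := sc_normSq H
  have h2 := norm_nonneg (sc H)
  have h3 : (0 : ℝ) ≤ H := by positivity
  nlinarith

lemma sc_ne (H : ℕ) : sc H ≠ 0 := by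
  intro h
  have := sc_normSq H
  rw [h, norm_zero] at this
  have h3 : (0 : ℝ) ≤ H := by positivity
  nlinarith

/-- Simultaneous approximation. -/
lemma approx (H : ℕ) (ξ₁ ξ₂ ξ₃ : ℂ) : ∃ p : ℕ, 1 ≤ p ∧ p ≤ MM H ∧
    ∃ z₁ z₂ z₃ : GaussianInt,
      ‖2 * (p : ℂ) / sc H - ξ₁ - (z₁ : ℂ)‖ ≤ 1 / ‖sc H‖ ∧
      ‖2 * (p : ℂ) / sc H ^ 2 - ξ₂ - (z₂ : ℂ)‖ ≤ 1 / ‖sc H‖ ∧
      ‖2 * (p : ℂ) / sc H ^ 3 - ξ₃ - (z₃ : ℂ)‖ ≤ 1 / ‖sc H‖ := by
  have hs := sc_ne H
  have hsn : 0 < ‖sc H‖ := norm_pos_iff.mpr hs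
  obtain ⟨a, ha⟩ := exists_round (sc H * ξ₁)
  obtain ⟨b, hb⟩ := exists_round (sc H * (ξ₂ - a / sc H ^ 2))
  obtain ⟨c, hc⟩ := exists_round (sc H * (ξ₃ - a / sc H ^ 3 - b / sc H ^ 2))
  obtain ⟨p, hp1, hp2, q, hq⟩ := exists_p H (a + b * sg H + c * sg H ^ 2)
  have hq' : 2 * (p : ℂ) = a + b * sc H + c * sc H ^ 2 + sc H ^ 3 * q := by
    have := congrArg (fun z : GaussianInt => (z : ℂ)) hq
    simp only [map_mul, map_add, map_pow, map_natCast, map_ofNat, sg_toComplex] at this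
    rw [this]
  have key : ∀ (x y : ℂ), ‖sc H * x - y‖ ≤ 1 → ‖y / sc H - x‖ ≤ 1 / ‖sc H‖ := by
    intro x y h
    have : y / sc H - x = -(sc H * x - y) / sc H := by field_simp; ring
    rw [this, norm_div, norm_neg]
    exact div_le_div_of_nonneg_right h hsn.le
  refine ⟨p, hp1, hp2, b + c * sg H + sg H ^ 2 * q, c + sg H * q, q, ?_, ?_, ?_⟩
  · have h := key _ _ ha
    have : 2 * (p : ℂ) / sc H - ξ₁ - ((b + c * sg H + sg H ^ 2 * q : GaussianInt) : ℂ) =
        a / sc H - ξ₁ := by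
      rw [hq']
      simp only [map_mul, map_add, map_pow, sg_toComplex]
      field_simp
      ring
    rw [this]
    exact h
  · have h := key _ _ hb
    have : 2 * (p : ℂ) / sc H ^ 2 - ξ₂ - ((c + sg H * q : GaussianInt) : ℂ) =
        b / sc H - (ξ₂ - a / sc H ^ 2) := by
      rw [hq']
      simp only [map_mul, map_add, sg_toComplex]
      field_simp
      ring
    rw [this]
    exact h
  · have h := key _ _ hc
    have : 2 * (p : ℂ) / sc H ^ 3 - ξ₃ - (q : ℂ) =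
        c / sc H - (ξ₃ - a / sc H ^ 3 - b / sc H ^ 2) := by
      rw [hq']
      field_simp
      ring
    rw [this]
    exact h

end Pool.Agent.Work.MP_5fc0ff_an
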