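import Mathlib

set_option autoImplicit false

open Set Filter Topology
open scoped Real

namespace Pool.Agent.Work.MP_5fc0ff_an

/-- unit complex numbers -/
noncomputable def ex (α : ℝ) : ℂ := Complex.exp (Complex.I * α)

lemma ex_norm (α : ℝ) : ‖ex α‖ = 1 := by
  unfold ex
  rw [mul_comm, Complex.norm_exp_ofReal_mul_I]

lemma ex_add (α β : ℝ) : ex (α + β) = ex α * ex β := by
  unfold ex
  rw [← Complex.exp_add]
  congr 1
  push_cast
  ring

lemma ex_nat_mul (n : ℕ) (α : ℝ) : ex (n * α) = ex α ^ n := by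
  unfold ex
  rw [← Complex.exp_nat_mul]
  congr 1
  push_cast
  ring

lemma ex_two_pi (l : ℤ) : ex (2 * π * l) = 1 := by
  unfold ex
  rw [Complex.exp_eq_one_iff]
  exact ⟨l, by push_cast; ring⟩

lemma ex_sub_one_le (α : ℝ) : ‖ex α - 1‖ ≤ |α| := by
  have h1 := Real.norm_exp_I_mul_ofReal_sub_one_le (x := α)
  rw [Real.norm_eq_abs] at h1
  exact h1

lemma ex_neg_sub_one (α : ℝ) : ‖ex (-α) - 1‖ = ‖ex α - 1‖ := by
  have h1 : ex (-α) - 1 = -(ex (-α) * (ex α - 1)) := by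
    rw [mul_sub, ← ex_add, neg_add_cancel]
    have : ex 0 = 1 := by unfold ex; simp
    rw [this]
    ring
  rw [h1, norm_neg, norm_mul, ex_norm, one_mul]

/-- the Dirichlet kernel -/
noncomputable def DD (H : ℕ) (α : ℝ) : ℂ := ∑ h ∈ Finset.range H, ex ((H + h : ℕ) * α)

lemma DD_norm_le (H : ℕ) (α : ℝ) : ‖DD H α‖ ≤ H := by
  unfold DD
  refine (norm_sum_le _ _).trans ?_
  simp [ex_norm]

lemma DD_upper (H : ℕ) (α : ℝ) : ‖DD H α‖ * ‖ex α - 1‖ ≤ 2 := by
  have h1 : DD H α * (ex α - 1) = ex α ^ H * (ex α ^ H - 1) := by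
    unfold DD
    have h2 : ∑ h ∈ Finset.range H, ex ((H + h : ℕ) * α) =
        ex α ^ H * ∑ h ∈ Finset.range H, ex α ^ h := by
      rw [Finset.mul_sum]
      refine Finset.sum_congr rfl fun h _ => ?_
      rw [ex_nat_mul, pow_add]
    rw [h2, mul_assoc, geom_sum_mul]
  rw [← norm_mul, h1, norm_mul, norm_pow, ex_norm, one_pow, one_mul]
  refine (norm_sub_le _ _).trans ?_
  rw [norm_pow, ex_norm, one_pow, norm_one]
  norm_num

lemma DD_lower {H : ℕ} (hH : 1 ≤ H) {α : ℝ} {l : ℤ} (hα : |α - 2 * π * l| ≤ 1 / H) :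
    (H : ℝ) / 2 ≤ ‖DD H α‖ := by
  have hH0 : (0 : ℝ) < H := by exact_mod_cast hH
  set β : ℝ := α - 2 * π * l with hβ
  have h1 : ∀ n : ℕ, ex (n * α) = ex (n * β) := by
    intro n
    have : (n : ℝ) * α = n * β + 2 * π * ((n * l : ℤ) : ℝ) := by
      rw [hβ]; push_cast; ring
    rw [this, ex_add, ex_two_pi, mul_one]
  have h2 : DD H α = ex (H * β) * ∑ h ∈ Finset.range H, ex (h * β) := by
    unfold DD
    rw [Finset.mul_sum]
    refine Finset.sum_congr rfl fun h _ => ?_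
    rw [h1, ← ex_add]
    congr 1
    push_cast
    ring
  rw [h2, norm_mul, ex_norm, one_mul]
  have h3 : (H : ℝ) / 2 ≤ (∑ h ∈ Finset.range H, ex (h * β)).re := by
    rw [Complex.re_sum]
    have h4 : ∀ h ∈ Finset.range H, (1 : ℝ) / 2 ≤ (ex (h * β)).re := by
      intro h hh
      have h5 : (ex (h * β)).re = Real.cos (h * β) := by
        unfold ex
        rw [mul_comm, Complex.exp_ofReal_mul_I_re]
      rw [h5]
      have h6 : |(h : ℝ) * β| ≤ 1 := by
        rw [abs_mul, abs_of_nonneg (by positivity : (0 : ℝ) ≤ h)]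
        have h7 : (h : ℝ) ≤ H := by exact_mod_cast (Finset.mem_range.mp hh).le
        calc (h : ℝ) * |β| ≤ H * (1 / H) :=
              mul_le_mul h7 hα (abs_nonneg _) hH0.le
          _ = 1 := by field_simp
      have h8 := Real.one_sub_sq_div_two_le_cos (x := (h : ℝ) * β)
      have h9 : ((h : ℝ) * β) ^ 2 ≤ 1 := by
        rw [← sq_abs]
        have := abs_nonneg ((h : ℝ) * β)
        nlinarith
      linarith
    calc (H : ℝ) / 2 = ∑ h ∈ Finset.range H, (1 : ℝ) / 2 := by simp; ring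
      _ ≤ _ := Finset.sum_le_sum h4
  exact h3.trans ((le_abs_self _).trans (Complex.abs_re_le_norm _))

section Two

variable (a b c d : ℝ)

/-- first frequency -/
def n0 (H : ℕ) (h k : ℕ) : ℝ := c + a * (H + h : ℕ) - b * (H + k : ℕ)

/-- second frequency -/
def n1 (H : ℕ) (h k : ℕ) : ℝ := d + b * (H + h : ℕ) + a * (H + k : ℕ)

/-- the torus solution -/
noncomputable def UU (H : ℕ) (x y τ : ℝ) : ℂ :=
  ∑ h ∈ Finset.range H, ∑ k ∈ Finset.range H,
    ex (n0 a b c H h k * x + n1 a b d H h k * y -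
      τ * (n0 a b c H h k ^ 2 + n1 a b d H h k ^ 2))

/-- the odd part -/
noncomputable def VV (H : ℕ) (x y τ : ℝ) : ℂ :=
  ∑ h ∈ Finset.range H, ∑ k ∈ Finset.range H,
    ((Real.sin (n0 a b c H h k * x) * Real.sin (n1 a b d H h k * y) : ℝ) : ℂ) *
      ex (-(τ * (n0 a b c H h k ^ 2 + n1 a b d H h k ^ 2)))

lemma VV_eq (H : ℕ) (x y τ : ℝ) : VV a b c d H x y τ = -(1 / 4) *
    (UU a b c d H x y τ - UU a b c d H x (-y) τ - UU a b c d H (-x) y τ +
      UU a b c d H (-x) (-y) τ) := by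
  unfold VV UU
  rw [← Finset.sum_sub_distrib, ← Finset.sum_sub_distrib, ← Finset.sum_add_distrib, Finset.mul_sum]
  refine Finset.sum_congr rfl fun h _ => ?_
  rw [← Finset.sum_sub_distrib, ← Finset.sum_sub_distrib, ← Finset.sum_add_distrib, Finset.mul_sum]
  refine Finset.sum_congr rfl fun k _ => ?_
  set m := n0 a b c H h k
  set n := n1 a b d H h k
  have key : ∀ u v w : ℝ, ex (u + v - w) = ex u * ex v * ex (-w) := by
    intro u v w
    rw [sub_eq_add_neg, ex_add, ex_add]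
  rw [key, key, key, key]
  have hs : ∀ u : ℝ, ((Real.sin u : ℝ) : ℂ) = (ex (-u) - ex u) * Complex.I / 2 := by
    intro u
    push_cast
    rw [Complex.sin]
    unfold ex
    push_cast
    have e1 : Complex.I * -(u : ℂ) = -(u : ℂ) * Complex.I := by ring
    have e2 : Complex.I * (u : ℂ) = (u : ℂ) * Complex.I := by ring
    rw [e1, e2]
  rw [Complex.ofReal_mul, hs, hs, mul_neg, mul_neg]
  have hI := Complex.I_sq
  linear_combination ((ex (-(m * x)) - ex (m * x)) * (ex (-(n * y)) - ex (n * y)) / 4 *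
    ex (-(τ * (m ^ 2 + n ^ 2)))) * hI

variable {a b c d}

/-- factorisation at the special times -/
lemma UU_eq (H : ℕ) (x y : ℝ) {τ : ℝ} {p : ℤ} (hτ : τ * (a ^ 2 + b ^ 2) = 2 * π * p) :
    UU a b c d H x y τ = ex (c * x + d * y - τ * (c ^ 2 + d ^ 2)) *
      DD H (a * x + b * y - 2 * τ * (a * c + b * d)) *
      DD H (-b * x + a * y - 2 * τ * (-b * c + a * d)) := by
  unfold UU DD
  rw [mul_assoc, Finset.sum_mul_sum, Finset.mul_sum]
  refine Finset.sum_congr rfl fun h _ => ?_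
  rw [Finset.mul_sum]
  refine Finset.sum_congr rfl fun k _ => ?_
  rw [← ex_add, ← ex_add]
  have h1 : n0 a b c H h k * x + n1 a b d H h k * y -
      τ * (n0 a b c H h k ^ 2 + n1 a b d H h k ^ 2) =
      (c * x + d * y - τ * (c ^ 2 + d ^ 2) +
        ((H + h : ℕ) * (a * x + b * y - 2 * τ * (a * c + b * d)) +
          (H + k : ℕ) * (-b * x + a * y - 2 * τ * (-b * c + a * d)))) +
      2 * π * (((-(p * ((H + h : ℕ) ^ 2 + (H + k : ℕ) ^ 2))) : ℤ) : ℝ) := by
    unfold n0 n1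
    push_cast
    linear_combination (-(((H : ℝ) + h) ^ 2 + ((H : ℝ) + k) ^ 2)) * hτ
  rw [h1, ex_add _ (2 * π * _), ex_two_pi, mul_one]

lemma far_bound {H : ℕ} (hH : 1 ≤ H) {α γ : ℝ} {l : ℤ} (hα : |α - 2 * π * l| ≤ 1 / H)
    (hγ : 49 / H ≤ ‖ex γ - 1‖) : ‖DD H (α - γ)‖ ≤ H / 24 := by
  have hH0 : (0 : ℝ) < H := by exact_mod_cast hH
  have h1 : ‖ex α - 1‖ ≤ 1 / H := by
    have h2 : ex α = ex (α - 2 * π * l) := by
      have : α = (α - 2 * π * l) + 2 * π * l := by ring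
      conv_lhs => rw [this, ex_add, ex_two_pi, mul_one]
    rw [h2]
    exact (ex_sub_one_le _).trans hα
  have h3 : 48 / H ≤ ‖ex (α - γ) - 1‖ := by
    have h4 : ex (α - γ) - 1 = (ex (-γ) - 1) + ex (-γ) * (ex α - 1) := by
      have : α - γ = α + -γ := by ring
      rw [this, ex_add]; ring
    have h5 : ‖ex (-γ) - 1‖ ≤ ‖ex (α - γ) - 1‖ + ‖ex (-γ) * (ex α - 1)‖ := by
      have : ex (-γ) - 1 = (ex (α - γ) - 1) - ex (-γ) * (ex α - 1) := by rw [h4]; ring
      rw [this]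
      exact norm_sub_le _ _
    rw [norm_mul, ex_norm, one_mul, ex_neg_sub_one] at h5
    have : (49 : ℝ) / H = 48 / H + 1 / H := by ring
    linarith
  have h6 := DD_upper H (α - γ)
  have h7 : ‖DD H (α - γ)‖ * (48 / H) ≤ 2 :=
    (mul_le_mul_of_nonneg_left h3 (norm_nonneg _)).trans h6
  rw [mul_div_assoc', div_le_iff₀ hH0] at h7
  linarith

/-- Lower bound for the odd part. -/
lemma VV_lower {H : ℕ} (hH : 1 ≤ H) {x y τ : ℝ} {p : ℤ} (hτ : τ * (a ^ 2 + b ^ 2) = 2 * π * p)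
    {l m : ℤ} (hα : |a * x + b * y - 2 * τ * (a * c + b * d) - 2 * π * l| ≤ 1 / H)
    (hβ : |-b * x + a * y - 2 * τ * (-b * c + a * d) - 2 * π * m| ≤ 1 / H)
    (h1 : 49 / H ≤ ‖ex (2 * (a * x)) - 1‖) (h2 : 49 / H ≤ ‖ex (2 * (a * y)) - 1‖)
    (h3 : 49 / H ≤ ‖ex (2 * (a * x + b * y)) - 1‖) :
    (H : ℝ) ^ 2 / 32 ≤ ‖VV a b c d H x y τ‖ := by
  have hH0 : (0 : ℝ) < H := by exact_mod_cast hH
  have k1 : (H : ℝ) ^ 2 / 4 ≤ ‖UU a b c d H x y τ‖ := by
    rw [UU_eq H x y hτ, norm_mul, norm_mul, ex_norm, one_mul]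
    have e1 := DD_lower hH hα
    have e2 := DD_lower hH hβ
    have : (H : ℝ) ^ 2 / 4 = (H / 2) * (H / 2) := by ring
    rw [this]
    exact mul_le_mul e1 e2 (by positivity) (norm_nonneg _)
  have k2 : ‖UU a b c d H x (-y) τ‖ ≤ (H : ℝ) ^ 2 / 24 := by
    rw [UU_eq H x (-y) hτ, norm_mul, norm_mul, ex_norm, one_mul]
    have e1 := DD_norm_le H (a * x + b * -y - 2 * τ * (a * c + b * d))
    have e2 := far_bound hH hβ h2
    have e3 : -b * x + a * -y - 2 * τ * (-b * c + a * d) =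
        -b * x + a * y - 2 * τ * (-b * c + a * d) - 2 * (a * y) := by ring
    rw [e3]
    have : (H : ℝ) ^ 2 / 24 = H * (H / 24) := by ring
    rw [this]
    exact mul_le_mul e1 e2 (norm_nonneg _) hH0.le
  have k3 : ‖UU a b c d H (-x) y τ‖ ≤ (H : ℝ) ^ 2 / 24 := by
    rw [UU_eq H (-x) y hτ, norm_mul, norm_mul, ex_norm, one_mul]
    have e1 := DD_norm_le H (-b * -x + a * y - 2 * τ * (-b * c + a * d))
    have e2 := far_bound hH hα h1
    have e3 : a * -x + b * y - 2 * τ * (a * c + b * d) =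
        a * x + b * y - 2 * τ * (a * c + b * d) - 2 * (a * x) := by ring
    rw [e3]
    have : (H : ℝ) ^ 2 / 24 = (H / 24) * H := by ring
    rw [this]
    exact mul_le_mul e2 e1 (norm_nonneg _) (by positivity)
  have k4 : ‖UU a b c d H (-x) (-y) τ‖ ≤ (H : ℝ) ^ 2 / 24 := by
    rw [UU_eq H (-x) (-y) hτ, norm_mul, norm_mul, ex_norm, one_mul]
    have e1 := DD_norm_le H (-b * -x + a * -y - 2 * τ * (-b * c + a * d))
    have e2 := far_bound hH hα h3
    have e3 : a * -x + b * -y - 2 * τ * (a * c + b * d) =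
        a * x + b * y - 2 * τ * (a * c + b * d) - 2 * (a * x + b * y) := by ring
    rw [e3]
    have : (H : ℝ) ^ 2 / 24 = (H / 24) * H := by ring
    rw [this]
    exact mul_le_mul e2 e1 (norm_nonneg _) (by positivity)
  rw [VV_eq, norm_mul, norm_neg]
  have k5 : ‖(1 / 4 : ℂ)‖ = 1 / 4 := by simp
  rw [k5]
  set A := UU a b c d H x y τ
  set B := UU a b c d H x (-y) τ
  set C := UU a b c d H (-x) y τ
  set D := UU a b c d H (-x) (-y) τ
  have k6 : ‖A‖ ≤ ‖A - B - C + D‖ + ‖B‖ + ‖C‖ + ‖D‖ := by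
    have : A = (A - B - C + D) + B + C - D := by ring
    calc ‖A‖ = ‖(A - B - C + D) + B + C - D‖ := by rw [← this]
      _ ≤ ‖(A - B - C + D) + B + C‖ + ‖D‖ := norm_sub_le _ _
      _ ≤ ‖(A - B - C + D) + B‖ + ‖C‖ + ‖D‖ := by
          have := norm_add_le ((A - B - C + D) + B) C
          linarith
      _ ≤ _ := by
          have := norm_add_le (A - B - C + D) B
          linarith
  linarith

end Two

end Pool.Agent.Work.MP_5fc0ff_an
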