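import Pool.Agent.Work.MP_5fc0ff_an.Prod
import Pool.Agent.Work.MP_5fc0ff_an.Approx
import Pool.Agent.Work.MP_5fc0ff_an.Kernel

set_option autoImplicit false

open Set Filter Topology MeasureTheory MeasureTheory.Measure
open scoped ENNReal Real ComplexConjugate

namespace Pool.Agent.Work.MP_5fc0ff_an

/-- index set of the six factors -/
abbrev Ix := Fin 3 × Fin 2

/-- real part of the modulus -/
def pa (H : ℕ) : ℤ := 4096 * H ^ 4 - 384 * H ^ 2 + 1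
/-- imaginary part of the modulus -/
def pb (H : ℕ) : ℤ := 2048 * H ^ 3 - 32 * H
/-- real part of the shift -/
def ca (H : ℕ) (j : Fin 3) : ℤ := ![8 * (H : ℤ), 64 * H ^ 2 - 1, 512 * H ^ 3 - 24 * H] j
/-- imaginary part of the shift -/
def cb (H : ℕ) (j : Fin 3) : ℤ := ![1, 16 * (H : ℤ), 192 * H ^ 2 - 1] j

/-- first frequency -/
def f0 (H : ℕ) (j : Fin 3) (h k : ℕ) : ℤ := ca H j + pa H * (H + h : ℕ) - pb H * (H + k : ℕ)
/-- second frequency -/
def f1 (H : ℕ) (j : Fin 3) (h k : ℕ) : ℤ := cb H j + pb H * (H + h : ℕ) + pa H * (H + k : ℕ)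

lemma pc_eq (H : ℕ) : ((pa H : ℤ) : ℂ) + ((pb H : ℤ) : ℂ) * Complex.I = sc H ^ 4 := by
  unfold pa pb sc
  have hI := Complex.I_sq
  have hI3 : Complex.I ^ 3 = -Complex.I := by rw [pow_succ, hI]; ring
  have hI4 : Complex.I ^ 4 = 1 := by rw [pow_succ, hI3]; linear_combination (-1) * hI
  push_cast
  ring_nf
  rw [hI, hI3, hI4]
  ring

lemma cc_eq (H : ℕ) (j : Fin 3) :
    ((ca H j : ℤ) : ℂ) + ((cb H j : ℤ) : ℂ) * Complex.I = sc H ^ ((j : ℕ) + 1) := by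
  unfold ca cb sc
  have hI := Complex.I_sq
  have hI3 : Complex.I ^ 3 = -Complex.I := by rw [pow_succ, hI]; ring
  fin_cases j
  · simp
  · simp
    ring_nf
    rw [hI]
    ring
  · simp
    ring_nf
    rw [hI, hI3]
    ring

lemma pb_nonneg (H : ℕ) : 0 ≤ pb H := by
  unfold pb
  rcases Nat.eq_zero_or_pos H with h | h
  · subst h; simp
  · have : (1 : ℤ) ≤ H := by exact_mod_cast h
    nlinarith [mul_pos (show (0 : ℤ) < H by linarith) (show (0 : ℤ) < H by linarith)]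

lemma pa_ge {H : ℕ} (hH : 2 ≤ H) : 2 * pb H + 1 ≤ pa H := by
  unfold pa pb
  have h : (2 : ℤ) ≤ H := by exact_mod_cast hH
  have h2 : (4 : ℤ) ≤ (H : ℤ) ^ 2 := by nlinarith
  have h3 : 2 * (H : ℤ) ^ 3 ≤ (H : ℤ) ^ 4 := by
    have e : (H : ℤ) ^ 4 = H * H ^ 3 := by ring
    rw [e]
    exact mul_le_mul_of_nonneg_right h (by positivity)
  have h4 : 4 * (H : ℤ) ^ 2 ≤ (H : ℤ) ^ 4 := by nlinarith
  nlinarith

lemma pa_le {H : ℕ} (hH : 1 ≤ H) : pa H ≤ 4096 * H ^ 4 := by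
  unfold pa
  have h : (1 : ℤ) ≤ H := by exact_mod_cast hH
  nlinarith

lemma ca_bound {H : ℕ} (hH : 1 ≤ H) (j : Fin 3) : 0 ≤ ca H j ∧ ca H j ≤ 512 * H ^ 4 := by
  have h : (1 : ℤ) ≤ H := by exact_mod_cast hH
  have h2 : (H : ℤ) ≤ (H : ℤ) ^ 2 := by nlinarith
  have h3 : (H : ℤ) ^ 2 ≤ (H : ℤ) ^ 3 := by nlinarith [sq_nonneg (H : ℤ)]
  have h4 : (H : ℤ) ^ 3 ≤ (H : ℤ) ^ 4 := by nlinarith [pow_pos (show (0 : ℤ) < H by linarith) 3]
  have c0 : ca H 0 = 8 * (H : ℤ) := rfl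
  have c1 : ca H 1 = 64 * (H : ℤ) ^ 2 - 1 := rfl
  have c2 : ca H 2 = 512 * (H : ℤ) ^ 3 - 24 * H := rfl
  fin_cases j
  · change 0 ≤ ca H 0 ∧ ca H 0 ≤ _
    rw [c0]; constructor <;> linarith
  · change 0 ≤ ca H 1 ∧ ca H 1 ≤ _
    rw [c1]; constructor <;> linarith
  · change 0 ≤ ca H 2 ∧ ca H 2 ≤ _
    rw [c2]; constructor <;> linarith

lemma cb_bound {H : ℕ} (hH : 1 ≤ H) (j : Fin 3) : 0 ≤ cb H j ∧ cb H j ≤ 512 * H ^ 4 := by
  have h : (1 : ℤ) ≤ H := by exact_mod_cast hH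
  have h2 : (H : ℤ) ≤ (H : ℤ) ^ 2 := by nlinarith
  have h3 : (H : ℤ) ^ 2 ≤ (H : ℤ) ^ 3 := by nlinarith [sq_nonneg (H : ℤ)]
  have h4 : (H : ℤ) ^ 3 ≤ (H : ℤ) ^ 4 := by nlinarith [pow_pos (show (0 : ℤ) < H by linarith) 3]
  have c0 : cb H 0 = 1 := rfl
  have c1 : cb H 1 = 16 * (H : ℤ) := rfl
  have c2 : cb H 2 = 192 * (H : ℤ) ^ 2 - 1 := rfl
  fin_cases j
  · change 0 ≤ cb H 0 ∧ cb H 0 ≤ _
    rw [c0]; constructor <;> linarith
  · change 0 ≤ cb H 1 ∧ cb H 1 ≤ _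
    rw [c1]; constructor <;> linarith
  · change 0 ≤ cb H 2 ∧ cb H 2 ≤ _
    rw [c2]; constructor <;> linarith

/-- bounds on the frequencies -/
lemma f_bounds {H : ℕ} (hH : 2 ≤ H) (j : Fin 3) {h k : ℕ} (hh : h < H) (hk : k < H) :
    ((H : ℤ) ≤ f0 H j h k ∧ f0 H j h k ≤ 20000 * H ^ 5) ∧
    ((H : ℤ) ≤ f1 H j h k ∧ f1 H j h k ≤ 20000 * H ^ 5) := by
  have h1 : (2 : ℤ) ≤ H := by exact_mod_cast hH
  have hh' : ((H + h : ℕ) : ℤ) ≤ 2 * H := by push_cast; omega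
  have hk' : ((H + k : ℕ) : ℤ) ≤ 2 * H := by push_cast; omega
  have hh0 : (H : ℤ) ≤ ((H + h : ℕ) : ℤ) := by push_cast; omega
  have hk0 : (H : ℤ) ≤ ((H + k : ℕ) : ℤ) := by push_cast; omega
  have hpb := pb_nonneg H
  have hpa := pa_ge hH
  have hpa2 := pa_le (show 1 ≤ H by omega)
  obtain ⟨hc1, hc2⟩ := ca_bound (show 1 ≤ H by omega) j
  obtain ⟨hd1, hd2⟩ := cb_bound (show 1 ≤ H by omega) j
  have h5 : (H : ℤ) ^ 5 = H ^ 4 * H := by ring
  have h4 : (0 : ℤ) < (H : ℤ) ^ 4 := by positivity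
  have h45 : (H : ℤ) ^ 4 ≤ (H : ℤ) ^ 5 := by nlinarith
  unfold f0 f1
  set u : ℤ := ((H + h : ℕ) : ℤ)
  set v : ℤ := ((H + k : ℕ) : ℤ)
  have m1 : pa H * H ≤ pa H * u := mul_le_mul_of_nonneg_left hh0 (by linarith)
  have m2 : pa H * u ≤ pa H * (2 * H) := mul_le_mul_of_nonneg_left hh' (by linarith)
  have m3 : pa H * H ≤ pa H * v := mul_le_mul_of_nonneg_left hk0 (by linarith)
  have m4 : pa H * v ≤ pa H * (2 * H) := mul_le_mul_of_nonneg_left hk' (by linarith)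
  have m5 : pb H * v ≤ pb H * (2 * H) := mul_le_mul_of_nonneg_left hk' hpb
  have m6 : pb H * u ≤ pb H * (2 * H) := mul_le_mul_of_nonneg_left hh' hpb
  have m7 : 0 ≤ pb H * v := mul_nonneg hpb (by linarith)
  have m8 : 0 ≤ pb H * u := mul_nonneg hpb (by linarith)
  have m9 : pa H * (2 * H) ≤ 8192 * (H : ℤ) ^ 5 := by nlinarith
  have m10 : (2 * pb H + 1) * H ≤ pa H * H := mul_le_mul_of_nonneg_right hpa (by linarith)
  have m11 : pb H * (2 * H) ≤ pa H * (2 * H) := by nlinarith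
  refine ⟨⟨by nlinarith, by nlinarith⟩, ⟨by nlinarith, by nlinarith⟩⟩

/-- The set of block indices. -/
def box (H : ℕ) : Finset (Fin 3 → ℕ × ℕ) :=
  Fintype.piFinset fun _ => Finset.range H ×ˢ Finset.range H

lemma mem_box {H : ℕ} {η : Fin 3 → ℕ × ℕ} : η ∈ box H ↔ ∀ j, (η j).1 < H ∧ (η j).2 < H := by
  unfold box
  rw [Fintype.mem_piFinset]
  simp

lemma box_card (H : ℕ) : (box H).card = H ^ 6 := by
  unfold box
  rw [Fintype.card_piFinset]
  simp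
  ring

/-- frequency of a block index -/
def fq (H : ℕ) (η : Fin 3 → ℕ × ℕ) (i : Ix) : ℤ :=
  if i.2 = 0 then f0 H i.1 (η i.1).1 (η i.1).2 else f1 H i.1 (η i.1).1 (η i.1).2

/-- degrees of a block index -/
def kq (H : ℕ) (η : Fin 3 → ℕ × ℕ) (i : Ix) : ℕ := (fq H η i - 1).toNat

lemma fq_bounds {H : ℕ} (hH : 2 ≤ H) {η : Fin 3 → ℕ × ℕ} (hη : η ∈ box H) (i : Ix) :
    (H : ℤ) ≤ fq H η i ∧ fq H η i ≤ 20000 * H ^ 5 := by
  have h := mem_box.mp hη i.1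
  have hb := f_bounds hH i.1 h.1 h.2
  unfold fq
  split_ifs
  · exact hb.1
  · exact hb.2

lemma kq_cast {H : ℕ} (hH : 2 ≤ H) {η : Fin 3 → ℕ × ℕ} (hη : η ∈ box H) (i : Ix) :
    (kq H η i : ℤ) + 1 = fq H η i := by
  have h := (fq_bounds hH hη i).1
  have h2 : (2 : ℤ) ≤ H := by exact_mod_cast hH
  unfold kq
  rw [Int.toNat_of_nonneg (by linarith)]
  ring

lemma kq_castR {H : ℕ} (hH : 2 ≤ H) {η : Fin 3 → ℕ × ℕ} (hη : η ∈ box H) (i : Ix) :
    (kq H η i : ℝ) + 1 = (fq H η i : ℤ) := by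
  rw [← kq_cast hH hη i]
  push_cast
  ring

/-- the frequencies determine the block index -/
lemma fq_injective {H : ℕ} (hH : 2 ≤ H) {η η' : Fin 3 → ℕ × ℕ} (h : fq H η = fq H η') :
    η = η' := by
  ext1 j
  have h0 := congrFun h (j, 0)
  have h1 := congrFun h (j, 1)
  unfold fq at h0 h1
  simp only [if_true, Fin.isValue, one_ne_zero, if_false] at h0 h1
  unfold f0 at h0
  unfold f1 at h1
  push_cast at h0 h1
  have hpb := pb_nonneg H
  have hpa := pa_ge hH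
  set u : ℤ := ((η j).1 : ℤ) - ((η' j).1 : ℤ) with hu
  set v : ℤ := ((η j).2 : ℤ) - ((η' j).2 : ℤ) with hv
  have e0 : pa H * u = pb H * v := by rw [hu, hv]; linarith
  have e1 : pb H * u = - (pa H * v) := by rw [hu, hv]; linarith
  have e2 : (pa H ^ 2 + pb H ^ 2) * u = 0 := by
    linear_combination pa H * e0 + pb H * e1
  have e3 : (pa H ^ 2 + pb H ^ 2) * v = 0 := by
    linear_combination (-pb H) * e0 + pa H * e1
  have hpos : 0 < pa H ^ 2 + pb H ^ 2 := by nlinarith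
  have hu0 : u = 0 := by
    rcases mul_eq_zero.mp e2 with h | h
    · omega
    · exact h
  have hv0 : v = 0 := by
    rcases mul_eq_zero.mp e3 with h | h
    · omega
    · exact h
  ext
  · omega
  · omega

/-- eigenvalue -/
noncomputable def ev (κ : ℝ) (k : Ix → ℕ) : ℝ := κ * ∑ i, (((k i : ℝ) + 1) ^ 2 - 1)

/-- The block function. -/
noncomputable def Bl (κ : ℝ) (H : ℕ) (t : ℝ) (x : Ix → S3) : ℂ :=
  ∑ η ∈ box H, ex (-(t * ev κ (kq H η))) * ez (kq H η) x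

/-- the weight function -/
noncomputable def sinprod (x : Ix → S3) : ℝ := ∏ i, Real.sin (ang (x i))

lemma sinprod_nonneg (x : Ix → S3) : 0 ≤ sinprod x :=
  Finset.prod_nonneg fun _ _ => Real.sin_nonneg_of_nonneg_of_le_pi (Real.arccos_nonneg _)
    (Real.arccos_le_pi _)

lemma sinprod_le (x : Ix → S3) : sinprod x ≤ 1 :=
  Finset.prod_le_one (fun _ _ => Real.sin_nonneg_of_nonneg_of_le_pi (Real.arccos_nonneg _)
    (Real.arccos_le_pi _)) fun _ _ => Real.sin_le_one _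

/-- factorisation of the block function -/
lemma Bl_mul {κ : ℝ} {H : ℕ} (hH : 2 ≤ H) (t : ℝ) (x : Ix → S3) :
    Bl κ H t x * (sinprod x : ℂ) = ex (6 * κ * t) *
      ∏ j : Fin 3, VV (pa H) (pb H) (ca H j) (cb H j) H (ang (x (j, 0))) (ang (x (j, 1))) (κ * t) := by
  have hV : ∀ j : Fin 3, VV (pa H) (pb H) (ca H j) (cb H j) H (ang (x (j, 0))) (ang (x (j, 1)))
      (κ * t) = ∑ q ∈ Finset.range H ×ˢ Finset.range H,
        ((Real.sin ((f0 H j q.1 q.2 : ℤ) * ang (x (j, 0))) *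
          Real.sin ((f1 H j q.1 q.2 : ℤ) * ang (x (j, 1))) : ℝ) : ℂ) *
          ex (-(κ * t * (((f0 H j q.1 q.2 : ℤ) : ℝ) ^ 2 + ((f1 H j q.1 q.2 : ℤ) : ℝ) ^ 2))) := by
    intro j
    rw [Finset.sum_product]
    unfold VV
    refine Finset.sum_congr rfl fun h _ => Finset.sum_congr rfl fun k _ => ?_
    have e0 : n0 (pa H) (pb H) (ca H j) H h k = ((f0 H j h k : ℤ) : ℝ) := by
      unfold n0 f0; push_cast; ring
    have e1 : n1 (pa H) (pb H) (cb H j) H h k = ((f1 H j h k : ℤ) : ℝ) := by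
      unfold n1 f1; push_cast; ring
    rw [e0, e1]
  simp_rw [hV]
  rw [Finset.prod_univ_sum, Finset.mul_sum]
  unfold Bl
  rw [Finset.sum_mul]
  refine Finset.sum_congr rfl fun η hη => ?_
  have hη' : η ∈ box H := hη
  -- the product of sines
  have h1 : ez (kq H η) x * (sinprod x : ℂ) =
      ∏ j : Fin 3, ((Real.sin ((f0 H j (η j).1 (η j).2 : ℤ) * ang (x (j, 0))) *
          Real.sin ((f1 H j (η j).1 (η j).2 : ℤ) * ang (x (j, 1))) : ℝ) : ℂ) := by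
    unfold ez sinprod
    rw [← Complex.ofReal_mul, ← Finset.prod_mul_distrib, ← Complex.ofReal_prod]
    congr 1
    rw [Fintype.prod_prod_type]
    refine Finset.prod_congr rfl fun j _ => ?_
    rw [Fin.prod_univ_two, zon_mul_sin, zon_mul_sin, kq_castR hH hη', kq_castR hH hη']
    rfl
  have h2 : ex (-(t * ev κ (kq H η))) = ex (6 * κ * t) *
      ∏ j : Fin 3, ex (-(κ * t * (((f0 H j (η j).1 (η j).2 : ℤ) : ℝ) ^ 2 +
        ((f1 H j (η j).1 (η j).2 : ℤ) : ℝ) ^ 2))) := by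
    have hprod : ∀ g : Fin 3 → ℝ, ∏ j : Fin 3, ex (g j) = ex (∑ j, g j) := by
      intro g
      rw [Fin.prod_univ_three, Fin.sum_univ_three, ex_add, ex_add]
    rw [hprod, ← ex_add]
    congr 1
    unfold ev
    simp_rw [kq_castR hH hη']
    rw [Fintype.sum_prod_type]
    simp only [Fin.sum_univ_two, Fin.sum_univ_three]
    unfold fq
    simp only [if_true, Fin.isValue, one_ne_zero, if_false]
    ring
  rw [Finset.prod_mul_distrib]
  calc ex (-(t * ev κ (kq H η))) * ez (kq H η) x * (sinprod x : ℂ)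
      = ex (-(t * ev κ (kq H η))) * (ez (kq H η) x * (sinprod x : ℂ)) := by ring
    _ = _ := by rw [h1, h2]; ring

/-- weights for the good set -/
def w1 (H : ℕ) (j : Fin 3) (i : Ix) : ℤ := if i = (j, 0) then pa H else 0
/-- weights for the good set -/
def w2 (H : ℕ) (j : Fin 3) (i : Ix) : ℤ := if i = (j, 1) then pa H else 0
/-- weights for the good set -/
def w3 (H : ℕ) (j : Fin 3) (i : Ix) : ℤ :=
  if i = (j, 0) then pa H else if i = (j, 1) then pb H else 0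

/-- the good set -/
def Good (H : ℕ) (x : Ix → S3) : Prop :=
  ∀ j : Fin 3, 49 / (H : ℝ) ≤ ‖chi (w1 H j) x - 1‖ ∧ 49 / (H : ℝ) ≤ ‖chi (w2 H j) x - 1‖ ∧
    49 / (H : ℝ) ≤ ‖chi (w3 H j) x - 1‖

lemma chi_eq (w : Ix → ℤ) (x : Ix → S3) : chi w x = ex (2 * wang w x) := by
  unfold chi ex
  congr 1
  push_cast
  ring

lemma wang_w1 (H : ℕ) (j : Fin 3) (x : Ix → S3) : wang (w1 H j) x = pa H * ang (x (j, 0)) := by
  unfold wang w1
  rw [Finset.sum_eq_single (j, 0)]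
  · simp
  · intro i _ hi
    simp [hi]
  · simp

lemma wang_w2 (H : ℕ) (j : Fin 3) (x : Ix → S3) : wang (w2 H j) x = pa H * ang (x (j, 1)) := by
  unfold wang w2
  rw [Finset.sum_eq_single (j, 1)]
  · simp
  · intro i _ hi
    simp [hi]
  · simp

lemma wang_w3 (H : ℕ) (j : Fin 3) (x : Ix → S3) :
    wang (w3 H j) x = pa H * ang (x (j, 0)) + pb H * ang (x (j, 1)) := by
  unfold wang w3
  rw [← Finset.sum_subset (Finset.subset_univ {(j, 0), (j, 1)})]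
  · rw [Finset.sum_pair (by simp)]
    simp
  · intro i _ hi
    simp only [Finset.mem_insert, Finset.mem_singleton, not_or] at hi
    simp [hi.1, hi.2]

/-- The times. -/
noncomputable def tm (κ : ℝ) (H p : ℕ) : ℝ := 2 * π * p / (κ * (64 * (H : ℝ) ^ 2 + 1) ^ 4)

lemma pab_sq (H : ℕ) : ((pa H : ℤ) : ℝ) ^ 2 + ((pb H : ℤ) : ℝ) ^ 2 = (64 * (H : ℝ) ^ 2 + 1) ^ 4 := by
  unfold pa pb
  push_cast
  ring

/-- Lower bound for the block function. -/
theorem Bl_lower {κ : ℝ} (hκ : 0 < κ) {H : ℕ} (hH : 2 ≤ H) {x : Ix → S3} (hx : Good H x) :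
    ∃ p : ℕ, 1 ≤ p ∧ p ≤ MM H ∧ (H : ℝ) ^ 6 / 32768 ≤ ‖Bl κ H (tm κ H p) x‖ := by
  have hH1 : 1 ≤ H := by omega
  have hH0 : (0 : ℝ) < H := by exact_mod_cast hH1
  set P : ℂ := sc H ^ 4 with hP
  have hs := sc_ne H
  have hsn := sc_norm_ge H
  have hsn0 : 0 < ‖sc H‖ := norm_pos_iff.mpr hs
  let X : Fin 3 → ℂ := fun j => (ang (x (j, 0)) : ℂ) + (ang (x (j, 1)) : ℂ) * Complex.I
  obtain ⟨p, hp1, hp2, z₁, z₂, z₃, hz₁, hz₂, hz₃⟩ := approx H (conj P * X 2 / (2 * π))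
    (conj P * X 1 / (2 * π)) (conj P * X 0 / (2 * π))
  have hg : (0 : ℝ) < (64 * (H : ℝ) ^ 2 + 1) ^ 4 := by positivity
  have hτ : κ * tm κ H p * (((pa H : ℤ) : ℝ) ^ 2 + ((pb H : ℤ) : ℝ) ^ 2) = 2 * π * ((p : ℤ) : ℝ) := by
    rw [pab_sq]
    unfold tm
    field_simp
    push_cast
    ring
  refine ⟨p, hp1, hp2, ?_⟩
  have hπ : (π : ℂ) ≠ 0 := by exact_mod_cast Real.pi_ne_zero
  have hPP : P * conj P = (((64 * (H : ℝ) ^ 2 + 1) ^ 4 : ℝ) : ℂ) := by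
    rw [hP, Complex.mul_conj, Complex.normSq_eq_norm_sq, norm_pow, ← sc_normSq]
    push_cast
    ring
  have hPne : P ≠ 0 := pow_ne_zero _ hs
  -- the near property
  have near : ∀ j : Fin 3, ∃ z : GaussianInt,
      ‖conj P * X j - 2 * ((κ * tm κ H p : ℝ) : ℂ) * (conj P * sc H ^ ((j : ℕ) + 1)) + 2 * π * z‖ ≤
        1 / H := by
    have key : ∀ (e : ℕ) (he : e ≤ 4) (Y : ℂ) (z : GaussianInt),
        ‖2 * (p : ℂ) / sc H ^ e - conj P * Y / (2 * π) - (z : ℂ)‖ ≤ 1 / ‖sc H‖ →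
        ‖conj P * Y - 2 * ((κ * tm κ H p : ℝ) : ℂ) * (conj P * sc H ^ (4 - e)) + 2 * π * z‖ ≤
          1 / H := by
      intro e he Y z h
      have h1 : ((κ * tm κ H p : ℝ) : ℂ) * (P * conj P) = 2 * π * p := by
        rw [hPP, ← Complex.ofReal_mul]
        have := hτ
        rw [pab_sq] at this
        rw [this]
        push_cast
        ring
      have h2 : P = sc H ^ (4 - e) * sc H ^ e := by
        rw [hP, ← pow_add]; congr 1; omega
      have h3 : 2 * ((κ * tm κ H p : ℝ) : ℂ) * (conj P * sc H ^ (4 - e)) =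
          2 * π * (2 * (p : ℂ) / sc H ^ e) := by
        have hse : sc H ^ e ≠ 0 := pow_ne_zero _ hs
        rw [mul_div_assoc', eq_div_iff hse]
        have : 2 * ((κ * tm κ H p : ℝ) : ℂ) * (conj P * sc H ^ (4 - e)) * sc H ^ e =
            2 * (((κ * tm κ H p : ℝ) : ℂ) * (P * conj P)) := by
          conv_rhs => rw [h2]
          rw [h2]
          ring
        rw [this, h1]
        ring
      have h4 : conj P * Y - 2 * ((κ * tm κ H p : ℝ) : ℂ) * (conj P * sc H ^ (4 - e)) + 2 * π * z =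
          -(2 * π) * (2 * (p : ℂ) / sc H ^ e - conj P * Y / (2 * π) - (z : ℂ)) := by
        rw [h3]
        field_simp
        ring
      rw [h4, norm_mul, norm_neg]
      have h5 : ‖(2 * π : ℂ)‖ = 2 * π := by
        rw [norm_mul, Complex.norm_real, Real.norm_eq_abs, abs_of_pos Real.pi_pos]
        simp
      rw [h5]
      calc 2 * π * ‖2 * (p : ℂ) / sc H ^ e - conj P * Y / (2 * π) - (z : ℂ)‖
          ≤ 2 * π * (1 / ‖sc H‖) := mul_le_mul_of_nonneg_left h (by positivity)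
        _ ≤ 1 / H := by
            rw [mul_one_div, div_le_div_iff₀ hsn0 hH0]
            have : π < 4 := Real.pi_lt_four
            nlinarith
    intro j
    fin_cases j
    · exact ⟨z₃, key 3 (by norm_num) (X 0) z₃ hz₃⟩
    · exact ⟨z₂, key 2 (by norm_num) (X 1) z₂ hz₂⟩
    · refine ⟨z₁, key 1 (by norm_num) (X 2) z₁ ?_⟩
      rw [pow_one]
      exact hz₁
  -- lower bounds for the factors
  have hV : ∀ j : Fin 3, (H : ℝ) ^ 2 / 32 ≤ ‖VV (pa H) (pb H) (ca H j) (cb H j) H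
      (ang (x (j, 0))) (ang (x (j, 1))) (κ * tm κ H p)‖ := by
    intro j
    obtain ⟨z, hz⟩ := near j
    obtain ⟨g1, g2, g3⟩ := hx j
    rw [chi_eq, wang_w1] at g1
    rw [chi_eq, wang_w2] at g2
    rw [chi_eq, wang_w3] at g3
    set W : ℂ := conj P * X j - 2 * ((κ * tm κ H p : ℝ) : ℂ) * (conj P * sc H ^ ((j : ℕ) + 1)) +
      2 * π * z with hW
    have hconj : conj P = ((pa H : ℤ) : ℂ) - ((pb H : ℤ) : ℂ) * Complex.I := by
      rw [hP, ← pc_eq]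
      simp
      ring
    have hcc := cc_eq H j
    have hzc : (z : ℂ) = (z.re : ℂ) + (z.im : ℂ) * Complex.I := by
      rw [GaussianInt.toComplex_def]
    have hWeq : W = (((pa H : ℝ) * ang (x (j, 0)) + pb H * ang (x (j, 1)) -
        2 * (κ * tm κ H p) * (pa H * ca H j + pb H * cb H j) - 2 * π * ((-z.re : ℤ) : ℝ) : ℝ) : ℂ) +
        ((-(pb H : ℝ) * ang (x (j, 0)) + pa H * ang (x (j, 1)) -
        2 * (κ * tm κ H p) * (-(pb H : ℝ) * ca H j + pa H * cb H j) -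
          2 * π * ((-z.im : ℤ) : ℝ) : ℝ) : ℂ) * Complex.I := by
      rw [hW, hconj, ← hcc, hzc]
      have hI := Complex.I_sq
      push_cast
      simp only [X]
      linear_combination (-(pb H : ℂ) * (ang (x (j, 1)) : ℂ) +
        2 * ((κ : ℂ) * (tm κ H p : ℂ)) * (pb H : ℂ) * (cb H j : ℂ)) * hI
    refine VV_lower hH1 (p := (p : ℤ)) (l := -z.re) (m := -z.im) hτ ?_ ?_ g1 g2 g3
    · have h1 := (Complex.abs_re_le_norm W).trans hz
      rw [hWeq] at h1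
      simpa using h1
    · have h1 := (Complex.abs_im_le_norm W).trans hz
      rw [hWeq] at h1
      simpa using h1
  have h1 := congrArg norm (Bl_mul (κ := κ) hH (tm κ H p) x)
  rw [norm_mul, norm_mul, ex_norm, one_mul, Complex.norm_real, Real.norm_eq_abs,
    abs_of_nonneg (sinprod_nonneg x), norm_prod, Fin.prod_univ_three] at h1
  have h2 : (H : ℝ) ^ 6 / 32768 ≤ ‖Bl κ H (tm κ H p) x‖ * sinprod x := by
    rw [h1]
    have e : (H : ℝ) ^ 6 / 32768 = ((H : ℝ) ^ 2 / 32) * ((H : ℝ) ^ 2 / 32) * ((H : ℝ) ^ 2 / 32) := by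
      ring
    rw [e]
    have p1 : (0 : ℝ) ≤ (H : ℝ) ^ 2 / 32 := by positivity
    exact mul_le_mul (mul_le_mul (hV 0) (hV 1) p1 (norm_nonneg _)) (hV 2) p1
      (mul_nonneg (norm_nonneg _) (norm_nonneg _))
  calc (H : ℝ) ^ 6 / 32768 ≤ ‖Bl κ H (tm κ H p) x‖ * sinprod x := h2
    _ ≤ ‖Bl κ H (tm κ H p) x‖ * 1 := mul_le_mul_of_nonneg_left (sinprod_le x) (norm_nonneg _)
    _ = _ := mul_one _

end Pool.Agent.Work.MP_5fc0ff_an
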