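import Pool.Agent.Work.MP_5fc0ff_an.Final

set_option autoImplicit false

open Set Filter Topology MeasureTheory
open scoped ENNReal Real

namespace Pool.Agent.Work.MP_5fc0ff_an

section conc

variable {Y : Type} [MeasurableSpace Y] {ν : Measure Y} {J : Type} {E : J → Lp ℂ 2 ν}
  {F : J → Y → ℂ}

lemma l2_conv (hE : ∀ k, E k =ᵐ[ν] F k) {a : J → ℂ} {v : Lp ℂ 2 ν}
    (hv : HasSum (fun k => a k • E k) v) {g : Y → ℂ} (hg : g =ᵐ[ν] v) :
    MemLp g 2 ν ∧ Tendsto (fun s : Finset J => eLpNorm (fun x => g x - ∑ k ∈ s, a k * F k x) 2 ν)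
      atTop (𝓝 0) := by
  refine ⟨(Lp.memLp v).ae_eq hg.symm, ?_⟩
  have h1 : ∀ s : Finset J, eLpNorm (fun x => g x - ∑ k ∈ s, a k * F k x) 2 ν =
      ENNReal.ofReal ‖v - ∑ k ∈ s, a k • E k‖ := by
    intro s
    rw [Lp.norm_def, ENNReal.ofReal_toReal (Lp.eLpNorm_ne_top _)]
    refine eLpNorm_congr_ae ?_
    have e1 := Lp.coeFn_sub v (∑ k ∈ s, a k • E k)
    have e2 := Lp.coeFn_fun_finsetSum s (fun k => a k • E k)
    have e3 : ∀ᵐ x ∂ν, ∀ k ∈ s, (a k • E k : Lp ℂ 2 ν) x = a k * F k x := by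
      rw [Filter.eventually_all_finset]
      intro k _
      filter_upwards [Lp.coeFn_smul (a k) (E k), hE k] with x hx1 hx2
      rw [hx1, Pi.smul_apply, smul_eq_mul, hx2]
    filter_upwards [e1, e2, e3, hg] with x hx1 hx2 hx3 hx4
    rw [hx1, Pi.sub_apply, hx2, hx4, Finset.sum_congr rfl hx3]
  simp_rw [h1]
  have h2 : Tendsto (fun s : Finset J => ‖v - ∑ k ∈ s, a k • E k‖) atTop (𝓝 0) := by
    have := (tendsto_const_nhds (x := v)).sub hv
    rw [sub_self] at this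
    simpa using this.norm
  simpa using ENNReal.tendsto_ofReal h2

lemma l2_unique (hE : ∀ k, E k =ᵐ[ν] F k) {a : J → ℂ} {v : Lp ℂ 2 ν}
    (hv : HasSum (fun k => a k • E k) v) {g : Y → ℂ} (hg : MemLp g 2 ν)
    (hg2 : Tendsto (fun s : Finset J => eLpNorm (fun x => g x - ∑ k ∈ s, a k * F k x) 2 ν)
      atTop (𝓝 0)) : g =ᵐ[ν] v := by
  obtain ⟨hv1, hv2⟩ := l2_conv hE hv (Filter.EventuallyEq.refl _ _)
  have hF : ∀ k, AEStronglyMeasurable (F k) ν := fun k =>
    (Lp.aestronglyMeasurable (E k)).congr (hE k)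
  have hS : ∀ s : Finset J, AEStronglyMeasurable (fun x => ∑ k ∈ s, a k * F k x) ν := fun s =>
    Finset.aestronglyMeasurable_fun_sum s fun k _ => (hF k).const_mul (a k)
  have h1 : ∀ s : Finset J, eLpNorm (fun x => g x - v x) 2 ν ≤
      eLpNorm (fun x => g x - ∑ k ∈ s, a k * F k x) 2 ν +
      eLpNorm (fun x => v x - ∑ k ∈ s, a k * F k x) 2 ν := by
    intro s
    have := eLpNorm_sub_le (μ := ν) (p := 2) (f := fun x => g x - ∑ k ∈ s, a k * F k x)
      (g := fun x => v x - ∑ k ∈ s, a k * F k x) (hg.1.sub (hS s)) (hv1.1.sub (hS s)) (by norm_num)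
    refine le_trans (le_of_eq ?_) this
    congr 1
    funext x
    simp
  have h2 := hg2.add hv2
  rw [add_zero] at h2
  have h3 : eLpNorm (fun x => g x - v x) 2 ν ≤ 0 := ge_of_tendsto' h2 h1
  have h4 : eLpNorm (fun x => g x - v x) 2 ν = 0 := le_antisymm h3 bot_le
  have h5 := (eLpNorm_eq_zero_iff (hg.1.sub hv1.1) (by norm_num)).mp h4
  filter_upwards [h5] with x hx
  exact sub_eq_zero.mp hx

end conc

end Pool.Agent.Work.MP_5fc0ff_an
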