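import Pool.Agent.Work.MP_5fc0ff_an.Block

set_option autoImplicit false

open Set Filter Topology
open scoped Real ContDiff

namespace Pool.Agent.Work.MP_5fc0ff_an

/-- A function on the ambient space whose restriction to the product of six unit three-spheres is
a smooth eigenfunction of the Laplace-Beltrami operator, for the eigenvalue `-μ`; the metric of
each factor is `1 / κ` times the round one. -/
def IsEigen (κ μ : ℝ) (F : (Ix → E4) → ℂ) : Prop :=
  ContDiff ℝ ∞ F ∧ ∀ x : Ix → E4, (∀ i, ‖x i‖ = 1) → ∀ v : Ix → Fin 3 → E4,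
    (∀ i, Orthonormal ℝ (v i)) → (∀ i a, inner ℝ (x i) (v i a) = 0) →
    (κ : ℂ) * ∑ i, ∑ a, iteratedDeriv 2 (fun t : ℝ =>
      F (Function.update x i (Real.cos t • x i + Real.sin t • v i a))) 0 = -(μ : ℂ) * F x

/-- The zonal product on the ambient space. -/
noncomputable def zp (k : Ix → ℕ) (x : Ix → E4) : ℂ :=
  ((∏ i, (Polynomial.Chebyshev.U ℝ (k i)).eval (x i 0) : ℝ) : ℂ)

lemma zp_contDiff (k : Ix → ℕ) : ContDiff ℝ ∞ (zp k) := by
  have h3 : ContDiff ℝ ∞ fun x : Ix → E4 =>
      ∏ i, (Polynomial.Chebyshev.U ℝ (k i)).eval (x i 0) := by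
    refine contDiff_prod fun i _ => ?_
    have h1 : ContDiff ℝ ∞ fun x : Ix → E4 => x i 0 := by
      have h2 : ContDiff ℝ ∞ fun x : Ix → E4 => x i := contDiff_apply ℝ E4 i
      exact (contDiff_euclidean.mp h2) 0
    have h4 : ContDiff ℝ ∞ fun y : ℝ => (Polynomial.Chebyshev.U ℝ (k i)).eval y := by
      have := Polynomial.contDiff_aeval (𝕜 := ℝ) (Polynomial.Chebyshev.U ℝ (k i)) ∞
      simpa using this
    exact h4.comp h1
  exact Complex.ofRealCLM.contDiff.comp h3

/-- second derivative of a polynomial along a circle -/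
lemma second_deriv (c : ℝ) (P : Polynomial ℝ) (p q : ℝ) :
    iteratedDeriv 2 (fun t : ℝ => ((c * P.eval (Real.cos t * p + Real.sin t * q) : ℝ) : ℂ)) 0 =
      ((c * ((P.derivative.derivative.eval p) * q ^ 2 - P.derivative.eval p * p) : ℝ) : ℂ) := by
  have hin : ∀ t : ℝ, HasDerivAt (fun t : ℝ => Real.cos t * p + Real.sin t * q)
      (-Real.sin t * p + Real.cos t * q) t := fun t =>
    ((Real.hasDerivAt_cos t).mul_const p).add ((Real.hasDerivAt_sin t).mul_const q)
  have hin2 : ∀ t : ℝ, HasDerivAt (fun t : ℝ => -Real.sin t * p + Real.cos t * q)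
      (-Real.cos t * p + -Real.sin t * q) t := fun t =>
    (((Real.hasDerivAt_sin t).neg).mul_const p).add ((Real.hasDerivAt_cos t).mul_const q)
  have h1 : deriv (fun t : ℝ => ((c * P.eval (Real.cos t * p + Real.sin t * q) : ℝ) : ℂ)) =
      fun t => ((c * (P.derivative.eval (Real.cos t * p + Real.sin t * q) *
        (-Real.sin t * p + Real.cos t * q)) : ℝ) : ℂ) := by
    funext t
    exact ((((P.hasDerivAt _).comp t (hin t)).const_mul c).ofReal_comp).deriv
  have h2 : HasDerivAt (fun t => ((c * (P.derivative.eval (Real.cos t * p + Real.sin t * q) *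
        (-Real.sin t * p + Real.cos t * q)) : ℝ) : ℂ))
      ((c * (P.derivative.derivative.eval (Real.cos 0 * p + Real.sin 0 * q) *
        (-Real.sin 0 * p + Real.cos 0 * q) * (-Real.sin 0 * p + Real.cos 0 * q) +
        P.derivative.eval (Real.cos 0 * p + Real.sin 0 * q) *
        (-Real.cos 0 * p + -Real.sin 0 * q)) : ℝ) : ℂ) 0 :=
    ((((P.derivative.hasDerivAt _).comp 0 (hin 0)).mul (hin2 0)).const_mul c).ofReal_comp
  rw [iteratedDeriv_succ, iteratedDeriv_one, h1, h2.deriv]
  congr 1
  simp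
  left
  ring

/-- Parseval -/
lemma parseval {x : E4} (hx : ‖x‖ = 1) {v : Fin 3 → E4} (hv : Orthonormal ℝ v)
    (hxv : ∀ a, inner ℝ x (v a) = 0) : ∑ a, (v a 0) ^ 2 = 1 - (x 0) ^ 2 := by
  let w : Fin 4 → E4 := Fin.cons x v
  have hw : Orthonormal ℝ w := by
    rw [orthonormal_iff_ite]
    intro i j
    refine Fin.cases ?_ (fun i => ?_) i
    · refine Fin.cases ?_ (fun j => ?_) j
      · simp [w, hx]
      · simp [w, hxv, (Fin.succ_ne_zero j).symm]
    · refine Fin.cases ?_ (fun j => ?_) j
      · simp [w, real_inner_comm x, hxv, Fin.succ_ne_zero i]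
      · have := (orthonormal_iff_ite.mp hv) i j
        simp only [w, Fin.cons_succ, Fin.succ_inj]
        exact this
  have hcard : Fintype.card (Fin 4) = Module.finrank ℝ E4 := by simp
  let b := basisOfOrthonormalOfCardEqFinrank hw hcard
  have hb : ⇑b = w := coe_basisOfOrthonormalOfCardEqFinrank hw hcard
  let ob : OrthonormalBasis (Fin 4) ℝ E4 := b.toOrthonormalBasis (by rw [hb]; exact hw)
  have hob : ⇑ob = w := by rw [Module.Basis.coe_toOrthonormalBasis, hb]
  have h1 := ob.sum_sq_norm_inner_right (EuclideanSpace.single 0 (1 : ℝ))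
  rw [hob] at h1
  rw [Fin.sum_univ_succ] at h1
  simp only [w, Fin.cons_zero, Fin.cons_succ] at h1
  simp only [PiLp.norm_single, norm_one, one_pow] at h1
  have h2 : ∀ y : E4, ‖inner ℝ y (EuclideanSpace.single (0 : Fin 4) (1 : ℝ))‖ ^ 2 = (y 0) ^ 2 := by
    intro y
    rw [EuclideanSpace.inner_single_right]
    simp
  simp_rw [h2] at h1
  linarith

/-- Zonal products are eigenfunctions. -/
theorem zp_eigen (κ : ℝ) (k : Ix → ℕ) : IsEigen κ (ev κ k) (zp k) := by
  refine ⟨zp_contDiff k, ?_⟩
  intro x hx v hv hxv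
  have h1 : ∀ i a, iteratedDeriv 2 (fun t : ℝ =>
      zp k (Function.update x i (Real.cos t • x i + Real.sin t • v i a))) 0 =
      (((∏ j ∈ Finset.univ.erase i, (Polynomial.Chebyshev.U ℝ (k j)).eval (x j 0)) *
        (((Polynomial.Chebyshev.U ℝ (k i)).derivative.derivative.eval (x i 0)) * (v i a 0) ^ 2 -
          (Polynomial.Chebyshev.U ℝ (k i)).derivative.eval (x i 0) * x i 0) : ℝ) : ℂ) := by
    intro i a
    have e1 : (fun t : ℝ => zp k (Function.update x i (Real.cos t • x i + Real.sin t • v i a))) =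
        fun t : ℝ => (((∏ j ∈ Finset.univ.erase i, (Polynomial.Chebyshev.U ℝ (k j)).eval (x j 0)) *
          (Polynomial.Chebyshev.U ℝ (k i)).eval
            (Real.cos t * x i 0 + Real.sin t * v i a 0) : ℝ) : ℂ) := by
      funext t
      unfold zp
      congr 1
      rw [← Finset.mul_prod_erase Finset.univ _ (Finset.mem_univ i), mul_comm]
      congr 1
      · refine Finset.prod_congr rfl fun j hj => ?_
        rw [Function.update_of_ne (Finset.ne_of_mem_erase hj)]
      · rw [Function.update_self]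
        simp
    rw [e1]
    exact second_deriv _ _ _ _
  have h2 : ∀ i, ∑ a, iteratedDeriv 2 (fun t : ℝ =>
      zp k (Function.update x i (Real.cos t • x i + Real.sin t • v i a))) 0 =
      ((-(((k i : ℝ) + 1) ^ 2 - 1) : ℝ) : ℂ) * zp k x := by
    intro i
    simp_rw [h1 i]
    rw [← Complex.ofReal_sum, ← Finset.mul_sum, Finset.sum_sub_distrib, ← Finset.mul_sum,
      parseval (hx i) (hv i) (hxv i)]
    have ode := congrArg (Polynomial.eval (x i 0))
      (Polynomial.Chebyshev.one_sub_X_sq_mul_derivative_derivative_U_eq_poly_in_U (R := ℝ) (k i : ℤ))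
    simp only [Polynomial.eval_mul, Polynomial.eval_sub, Polynomial.eval_add, Polynomial.eval_one,
      Polynomial.eval_pow, Polynomial.eval_X, Polynomial.eval_ofNat, Function.iterate_succ,
      Function.iterate_zero, Function.comp, id, Polynomial.eval_intCast] at ode
    unfold zp
    rw [← Finset.mul_prod_erase Finset.univ _ (Finset.mem_univ i), ← Complex.ofReal_mul]
    congr 1
    simp only [Finset.sum_const, Finset.card_univ, Fintype.card_fin, nsmul_eq_mul]
    push_cast at ode ⊢
    linear_combination (∏ j ∈ Finset.univ.erase i,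
      (Polynomial.Chebyshev.U ℝ (k j)).eval (x j 0)) * ode
  simp_rw [h2]
  rw [← Finset.sum_mul]
  unfold ev
  push_cast
  rw [Finset.sum_neg_distrib]
  ring

end Pool.Agent.Work.MP_5fc0ff_an
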