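import Pool.Agent.Work.MP_5fc0ff_an.Glide

set_option autoImplicit false

open Set Filter Topology MeasureTheory
open scoped ENNReal Real

namespace Pool.Agent.Work.MP_5fc0ff_an

variable {κ α : ℝ}

lemma pa_two {H : ℕ} (hH : 2 ≤ H) : 2 ≤ |pa H| := by
  have h1 := pa_ge hH
  have h2 : (1 : ℤ) ≤ pb H := by
    unfold pb
    have h : (2 : ℤ) ≤ H := by exact_mod_cast hH
    have h4 : (4 : ℤ) ≤ (H : ℤ) ^ 2 := by nlinarith
    have h3 : (H : ℤ) ^ 3 = H * H ^ 2 := by ring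
    rw [h3]
    nlinarith
  exact le_trans (by linarith) (le_abs_self _)

lemma not_good {H : ℕ} (hH : 2 ≤ H) (h49 : 1 ≤ H / 49) :
    nu Ix {x | ¬ Good H x} ≤ ENNReal.ofReal (9 * (4 / ((H / 49 : ℕ) : ℝ))) := by
  have hH0 : (0 : ℝ) < H := by
    have : 0 < H := by omega
    exact_mod_cast this
  have hδ : 49 / (H : ℝ) * ((H / 49 : ℕ) : ℝ) ≤ 1 := by
    rw [div_mul_eq_mul_div, div_le_one hH0]
    have : 49 * (H / 49) ≤ H := Nat.mul_div_le H 49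
    exact_mod_cast this
  have hpa := pa_two hH
  have b1 : ∀ j, nu Ix {x | ‖chi (w1 H j) x - 1‖ < 49 / H} ≤
      ENNReal.ofReal (4 / ((H / 49 : ℕ) : ℝ)) := fun j =>
    bad_set ⟨(j, 0), by unfold w1; simpa using hpa⟩ h49 hδ
  have b2 : ∀ j, nu Ix {x | ‖chi (w2 H j) x - 1‖ < 49 / H} ≤
      ENNReal.ofReal (4 / ((H / 49 : ℕ) : ℝ)) := fun j =>
    bad_set ⟨(j, 1), by unfold w2; simpa using hpa⟩ h49 hδ
  have b3 : ∀ j, nu Ix {x | ‖chi (w3 H j) x - 1‖ < 49 / H} ≤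
      ENNReal.ofReal (4 / ((H / 49 : ℕ) : ℝ)) := fun j =>
    bad_set ⟨(j, 0), by unfold w3; simpa using hpa⟩ h49 hδ
  have hsub : {x | ¬ Good H x} ⊆ ⋃ j : Fin 3, ({x | ‖chi (w1 H j) x - 1‖ < 49 / H} ∪
      {x | ‖chi (w2 H j) x - 1‖ < 49 / H}) ∪ {x | ‖chi (w3 H j) x - 1‖ < 49 / H} := by
    intro x hx
    by_contra h
    apply hx
    intro j
    rw [Set.mem_iUnion] at h
    have hj : ¬ (x ∈ ({x | ‖chi (w1 H j) x - 1‖ < 49 / H} ∪
      {x | ‖chi (w2 H j) x - 1‖ < 49 / H}) ∪ {x | ‖chi (w3 H j) x - 1‖ < 49 / (H : ℝ)}) :=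
      fun hh => h ⟨j, hh⟩
    rw [Set.mem_union, Set.mem_union] at hj
    push Not at hj
    exact ⟨not_lt.mp hj.1.1, not_lt.mp hj.1.2, not_lt.mp hj.2⟩
  refine (measure_mono hsub).trans ((measure_iUnion_fintype_le _ _).trans ?_)
  have b4 : ∀ j ∈ (Finset.univ : Finset (Fin 3)),
      nu Ix (({x | ‖chi (w1 H j) x - 1‖ < 49 / H} ∪
      {x | ‖chi (w2 H j) x - 1‖ < 49 / H}) ∪ {x | ‖chi (w3 H j) x - 1‖ < 49 / (H : ℝ)}) ≤
      3 * ENNReal.ofReal (4 / ((H / 49 : ℕ) : ℝ)) := by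
    intro j _
    refine (measure_union_le _ _).trans ?_
    refine (add_le_add (measure_union_le _ _) le_rfl).trans ?_
    refine (add_le_add (add_le_add (b1 j) (b2 j)) (b3 j)).trans (le_of_eq ?_)
    ring
  refine (Finset.sum_le_sum b4).trans (le_of_eq ?_)
  rw [Finset.sum_const, Finset.card_univ, Fintype.card_fin, nsmul_eq_mul,
    ENNReal.ofReal_mul (by norm_num)]
  norm_num
  rw [← mul_assoc]
  norm_num

lemma cheb (R : Lp ℂ 2 (nu Ix)) : nu Ix {x | 1 ≤ ‖R x‖} ≤ ENNReal.ofReal (‖R‖ ^ 2) := by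
  have h1 := mul_meas_ge_le_pow_eLpNorm' (nu Ix) (p := 2) (by norm_num) (by norm_num)
    (Lp.aestronglyMeasurable R) 1
  simp only [ENNReal.toReal_ofNat, ENNReal.one_rpow, one_mul] at h1
  have h2 : {x | 1 ≤ ‖R x‖} = {x | 1 ≤ ‖R x‖ₑ} := by
    ext x
    show 1 ≤ ‖R x‖ ↔ 1 ≤ ‖R x‖ₑ
    rw [← ofReal_norm, ENNReal.one_le_ofReal]
  rw [h2]
  refine h1.trans (le_of_eq ?_)
  have h3 : eLpNorm R 2 (nu Ix) = ENNReal.ofReal ‖R‖ := by
    rw [Lp.norm_def, ENNReal.ofReal_toReal (Lp.eLpNorm_ne_top R)]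
  rw [h3, ENNReal.ofReal_pow (norm_nonneg _)]
  norm_num

lemma tm_pos (hκ : 0 < κ) {H p : ℕ} (hp : 1 ≤ p) : 0 < tm κ H p := by
  unfold tm
  have : (0 : ℝ) < p := by exact_mod_cast hp
  positivity

lemma tm_lt (hκ : 0 < κ) {H p : ℕ} (hp : p ≤ MM H) :
    tm κ H p ≤ 2 * π / (κ * (64 * (H : ℝ) ^ 2 + 1)) := by
  unfold tm
  rw [div_le_div_iff₀ (by positivity) (by positivity)]
  have h1 : (p : ℝ) ≤ (64 * (H : ℝ) ^ 2 + 1) ^ 3 := by
    have h2 : (p : ℝ) ≤ (MM H : ℕ) := by exact_mod_cast hp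
    refine h2.trans (le_of_eq ?_)
    unfold MM
    push_cast
    ring
  have h3 : (0 : ℝ) < 64 * (H : ℝ) ^ 2 + 1 := by positivity
  have h4 : 2 * π * p * (κ * (64 * (H : ℝ) ^ 2 + 1)) ≤
      2 * π * (64 * (H : ℝ) ^ 2 + 1) ^ 3 * (κ * (64 * (H : ℝ) ^ 2 + 1)) := by
    gcongr
  refine h4.trans (le_of_eq ?_)
  ring

/-- The exceptional sets. -/
def Exc (S : Hump κ α) (n : ℕ) : Set (Ix → S3) :=
  {x | ¬ Good (S.H n) x} ∪ ⋃ p ∈ Finset.Icc 1 (MM (S.H n)), {x | 1 ≤ ‖rr S (tm κ (S.H n) p) n x‖}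

lemma exc_measure (hκ : 0 < κ) (hα0 : 0 ≤ α) (S : Hump κ α) (n : ℕ) :
    nu Ix (Exc S n) ≤ ENNReal.ofReal (3 * (1 / 2) ^ n) := by
  have h1 : nu Ix {x | ¬ Good (S.H n) x} ≤ ENNReal.ofReal ((1 / 2) ^ n) :=
    (not_good (S.two n) (S.bad1 n)).trans (ENNReal.ofReal_le_ofReal (S.bad n))
  have h2 : nu Ix (⋃ p ∈ Finset.Icc 1 (MM (S.H n)), {x | 1 ≤ ‖rr S (tm κ (S.H n) p) n x‖}) ≤
      ENNReal.ofReal (2 * (1 / 2) ^ n) := by
    refine (measure_biUnion_finset_le _ _).trans ?_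
    have hM : (0 : ℝ) < MM (S.H n) := by
      have : 0 < MM (S.H n) := by unfold MM; positivity
      exact_mod_cast this
    have h3 : ∀ p ∈ Finset.Icc 1 (MM (S.H n)),
        nu Ix {x | 1 ≤ ‖rr S (tm κ (S.H n) p) n x‖} ≤
          ENNReal.ofReal (2 * (1 / 2) ^ n / MM (S.H n)) := by
      intro p _
      refine (cheb _).trans (ENNReal.ofReal_le_ofReal ?_)
      rw [le_div_iff₀ hM]
      exact rr_norm hκ hα0 S _ n
    refine (Finset.sum_le_sum h3).trans (le_of_eq ?_)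
    rw [Finset.sum_const, Nat.card_Icc, nsmul_eq_mul, Nat.add_sub_cancel,
      ← ENNReal.ofReal_natCast, ← ENNReal.ofReal_mul hM.le]
    congr 1
    field_simp
  refine (measure_union_le _ _).trans ((add_le_add h1 h2).trans (le_of_eq ?_))
  rw [← ENNReal.ofReal_add (by positivity) (by positivity)]
  congr 1
  ring

/-- The key statement: unboundedness almost everywhere. -/
theorem unbounded (hκ : 0 < κ) (hα0 : 0 ≤ α) (S : Hump κ α) {U : ℝ → (Ix → S3) → ℂ}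
    (hU : ∀ t, 0 < t → U t =ᵐ[nu Ix] uu S t) :
    ∀ᵐ x ∂nu Ix, ∀ M : ℝ, ∃ᶠ t in 𝓝[>] (0 : ℝ), M ≤ ‖U t x‖ := by
  have h1 : ∀ᵐ x ∂nu Ix, ∀ᶠ n in atTop, x ∉ Exc S n := by
    refine ae_eventually_notMem ?_
    have hs : Summable fun n : ℕ => 3 * (1 / 2 : ℝ) ^ n := summable_geometric_two.mul_left 3
    exact ne_top_of_le_ne_top hs.tsum_ofReal_ne_top
      (ENNReal.tsum_le_tsum fun n => exc_measure hκ hα0 S n)
  have h2 : ∀ᵐ x ∂nu Ix, ∀ n p : ℕ, 1 ≤ p → U (tm κ (S.H n) p) x =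
      uu S (tm κ (S.H n) p) x := by
    rw [ae_all_iff]; intro n
    rw [ae_all_iff]; intro p
    by_cases hp : 1 ≤ p
    · filter_upwards [hU _ (tm_pos hκ hp)] with x hx _ using hx
    · exact Eventually.of_forall fun x h => absurd h hp
  have h3 : ∀ᵐ x ∂nu Ix, ∀ n p : ℕ, uu S (tm κ (S.H n) p) x =
      (∑ m ∈ Finset.range (n + 1), (S.b m : ℂ) * Bl κ (S.H m) (tm κ (S.H n) p) x) +
        rr S (tm κ (S.H n) p) n x := by
    rw [ae_all_iff]; intro n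
    rw [ae_all_iff]; intro p
    set t := tm κ (S.H n) p
    have e1 := Lp.coeFn_sub (uu S t) (∑ m ∈ Finset.range (n + 1), blk S m t)
    have e2 := Lp.coeFn_fun_finsetSum (Finset.range (n + 1)) (fun m => blk S m t)
    have e3 : ∀ᵐ x ∂nu Ix, ∀ m : ℕ, blk S m t x = (S.b m : ℂ) * Bl κ (S.H m) t x := by
      rw [ae_all_iff]; intro m
      exact blk_coe S m t
    filter_upwards [e1, e2, e3] with x hx1 hx2 hx3
    unfold rr
    rw [hx1, Pi.sub_apply, hx2]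
    simp_rw [hx3]
    ring
  filter_upwards [h1, h2, h3] with x hx1 hx2 hx3
  intro M
  rw [Filter.frequently_iff]
  intro Ut hUt
  obtain ⟨δ, hδ, hδs⟩ := mem_nhdsGT_iff_exists_Ioo_subset.mp hUt
  have hδ0 : (0 : ℝ) < δ := hδ
  obtain ⟨N1, hN1⟩ := eventually_atTop.mp hx1
  obtain ⟨N2, hN2⟩ := exists_nat_gt M
  obtain ⟨N3, hN3⟩ := exists_nat_one_div_lt hδ0
  set n := max N1 (max N2 N3) with hn
  have hn1 : N1 ≤ n := le_max_left _ _
  have hn2 : N2 ≤ n := (le_max_left _ _).trans (le_max_right _ _)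
  have hn3 : N3 ≤ n := (le_max_right _ _).trans (le_max_right _ _)
  have hexc := hN1 n hn1
  unfold Exc at hexc
  rw [Set.mem_union] at hexc
  push Not at hexc
  obtain ⟨hg, hr⟩ := hexc
  have hgood : Good (S.H n) x := by
    by_contra h
    exact hg h
  obtain ⟨p, hp1, hp2, hp3⟩ := Bl_lower hκ (S.two n) hgood
  set t := tm κ (S.H n) p with ht
  have hrp : ‖rr S t n x‖ < 1 := by
    by_contra h
    apply hr
    rw [Set.mem_iUnion₂]
    exact ⟨p, Finset.mem_Icc.mpr ⟨hp1, hp2⟩, not_lt.mp h⟩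
  refine ⟨t, hδs ⟨tm_pos hκ hp1, ?_⟩, ?_⟩
  · refine (tm_lt hκ hp2).trans_lt ((S.time n).trans_le (le_trans ?_ hN3.le))
    have : (N3 : ℝ) ≤ n := by exact_mod_cast hn3
    exact one_div_le_one_div_of_le (by positivity) (by linarith)
  · rw [hx2 n p hp1, hx3 n p, Finset.sum_range_succ]
    have hb := S.bpos n
    set P : ℂ := ∑ m ∈ Finset.range n, (S.b m : ℂ) * Bl κ (S.H m) t x with hP
    have e1 : ‖P‖ ≤ ∑ m ∈ Finset.range n, S.b m * S.CC m := by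
      refine (norm_sum_le _ _).trans (Finset.sum_le_sum fun m _ => ?_)
      rw [norm_mul, Complex.norm_real, Real.norm_eq_abs, abs_of_pos (S.bpos m)]
      exact mul_le_mul_of_nonneg_left (S.bdd m t x) (S.bpos m).le
    have e2 : S.b n * ((S.H n : ℝ) ^ 6 / 32768) ≤ ‖(S.b n : ℂ) * Bl κ (S.H n) t x‖ := by
      rw [norm_mul, Complex.norm_real, Real.norm_eq_abs, abs_of_pos hb]
      exact mul_le_mul_of_nonneg_left hp3 hb.le
    have e3 : ‖(S.b n : ℂ) * Bl κ (S.H n) t x‖ ≤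
        ‖P + (S.b n : ℂ) * Bl κ (S.H n) t x + rr S t n x‖ + ‖P‖ + ‖rr S t n x‖ := by
      have : (S.b n : ℂ) * Bl κ (S.H n) t x =
          (P + (S.b n : ℂ) * Bl κ (S.H n) t x + rr S t n x) - P - rr S t n x := by ring
      calc ‖(S.b n : ℂ) * Bl κ (S.H n) t x‖
          = ‖(P + (S.b n : ℂ) * Bl κ (S.H n) t x + rr S t n x) - P - rr S t n x‖ := by
            rw [← this]
        _ ≤ ‖(P + (S.b n : ℂ) * Bl κ (S.H n) t x + rr S t n x) - P‖ + ‖rr S t n x‖ :=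
            norm_sub_le _ _
        _ ≤ _ := by
            have := norm_sub_le (P + (S.b n : ℂ) * Bl κ (S.H n) t x + rr S t n x) P
            linarith
    have e4 := S.main n
    have e5 : (N2 : ℝ) ≤ n := by exact_mod_cast hn2
    have e6 : M < N2 := hN2
    linarith

end Pool.Agent.Work.MP_5fc0ff_an
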