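import Pool.Agent.Work.MP_5fc0ff_an.Step

set_option autoImplicit false

open Set Filter Topology MeasureTheory
open scoped ENNReal Real

namespace Pool.Agent.Work.MP_5fc0ff_an

section orth

variable {V : Type} [NormedAddCommGroup V] [InnerProductSpace ℂ V] {J : Type} {E : J → V}

lemma orth_summable [CompleteSpace V] (hE : Orthonormal ℂ E) {a : J → ℂ}
    (ha : Summable fun k => ‖a k‖ ^ 2) : Summable fun k => a k • E k := by
  have := (hE.orthogonalFamily.summable_iff_norm_sq_summable a).mpr ha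
  simpa using this

lemma orth_hasSum (hE : Orthonormal ℂ E) {a : J → ℂ} {v : V}
    (h : HasSum (fun k => a k • E k) v) : HasSum (fun k => ‖a k‖ ^ 2) (‖v‖ ^ 2) := by
  have h1 : Tendsto (fun s : Finset J => ‖∑ k ∈ s, a k • E k‖ ^ 2) atTop (𝓝 (‖v‖ ^ 2)) :=
    (Tendsto.norm h).pow 2
  refine h1.congr fun s => ?_
  have := hE.orthogonalFamily.norm_sum a s
  simpa using this

end orth

variable {κ α : ℝ}

/-- index set -/
abbrev JJ (S : Hump κ α) : Type := Σ n : ℕ, (box (S.H n))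

/-- the degrees -/
def ee (S : Hump κ α) (k : JJ S) : Ix → ℕ := kq (S.H k.1) k.2.1

lemma ee_injective (S : Hump κ α) : Function.Injective (ee S) := by
  have key : ∀ (m n : ℕ) (η : box (S.H m)) (η' : box (S.H n)), m < n →
      kq (S.H m) η.1 ≠ kq (S.H n) η'.1 := by
    intro m n η η' hmn h
    have h1 := kq_cast (S.two m) η.2 (0, 0)
    have h2 := kq_cast (S.two n) η'.2 (0, 0)
    rw [h] at h1
    have h3 := (fq_bounds (S.two m) η.2 (0, 0)).2
    have h4 := (fq_bounds (S.two n) η'.2 (0, 0)).1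
    have h5 := S.sep m n hmn
    have h6 : (20000 * (S.H m : ℤ) ^ 5) < S.H n := by exact_mod_cast h5
    linarith
  rintro ⟨m, η⟩ ⟨n, η'⟩ h
  unfold ee at h
  rcases lt_trichotomy m n with hmn | hmn | hmn
  · exact absurd h (key m n η η' hmn)
  · subst hmn
    congr 1
    apply Subtype.ext
    apply fq_injective (S.two m)
    funext i
    rw [← kq_cast (S.two m) η.2 i, ← kq_cast (S.two m) η'.2 i]
    have := congrFun h i
    simp only at this
    rw [this]
  · exact absurd h.symm (key n m η' η hmn)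

/-- the orthonormal family -/
noncomputable def EE (S : Hump κ α) (k : JJ S) : Lp ℂ 2 (nu Ix) := EZ (ee S k)

lemma EE_orthonormal (S : Hump κ α) : Orthonormal ℂ (EE S) :=
  EZ_orthonormal.comp _ (ee_injective S)

/-- the coefficients -/
noncomputable def aa (S : Hump κ α) (t : ℝ) (k : JJ S) : ℂ :=
  (S.b k.1 : ℂ) * ex (-(t * ev κ (ee S k)))

lemma aa_norm (S : Hump κ α) (t : ℝ) (k : JJ S) : ‖aa S t k‖ ^ 2 = S.b k.1 ^ 2 := by
  unfold aa
  rw [norm_mul, ex_norm, mul_one, Complex.norm_real, Real.norm_eq_abs, sq_abs]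

lemma ev_bound {κ : ℝ} (hκ : 0 < κ) {H : ℕ} (hH : 2 ≤ H) {η : Fin 3 → ℕ × ℕ} (hη : η ∈ box H) :
    0 ≤ ev κ (kq H η) ∧ ev κ (kq H η) ≤ κ * (6 * (20000 * (H : ℝ) ^ 5) ^ 2) := by
  have h1 : ∀ i, 1 ≤ (kq H η i : ℝ) + 1 := fun i => by
    have : (0 : ℝ) ≤ kq H η i := Nat.cast_nonneg _
    linarith
  have h2 : ∀ i, (kq H η i : ℝ) + 1 ≤ 20000 * (H : ℝ) ^ 5 := fun i => by
    rw [kq_castR hH hη]
    exact_mod_cast (fq_bounds hH hη i).2
  unfold ev
  constructor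
  · refine mul_nonneg hκ.le (Finset.sum_nonneg fun i _ => ?_)
    nlinarith [h1 i]
  · refine mul_le_mul_of_nonneg_left ?_ hκ.le
    have h3 : ∀ i ∈ (Finset.univ : Finset Ix), ((kq H η i : ℝ) + 1) ^ 2 - 1 ≤
        (20000 * (H : ℝ) ^ 5) ^ 2 := by
      intro i _
      have h4 := h1 i
      have h5 := h2 i
      nlinarith
    refine (Finset.sum_le_sum h3).trans (le_of_eq ?_)
    simp

lemma sob_summable (hκ : 0 < κ) (hα0 : 0 ≤ α) (S : Hump κ α) :
    Summable fun k : JJ S => (1 + ev κ (ee S k)) ^ α * S.b k.1 ^ 2 := by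
  have hev : ∀ k : JJ S, 0 ≤ ev κ (ee S k) := fun k => (ev_bound hκ (S.two _) k.2.2).1
  have hnn : ∀ k : JJ S, 0 ≤ (1 + ev κ (ee S k)) ^ α * S.b k.1 ^ 2 := fun k => by
    have := hev k
    positivity
  rw [summable_sigma_of_nonneg hnn]
  refine ⟨fun n => Summable.of_finite, ?_⟩
  refine Summable.of_nonneg_of_le (fun n => tsum_nonneg fun η => hnn _) (fun n => ?_)
    summable_geometric_two
  rw [tsum_fintype]
  have h1 : ∀ η ∈ (Finset.univ : Finset (box (S.H n))),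
      (1 + ev κ (ee S ⟨n, η⟩)) ^ α * S.b n ^ 2 ≤
      (1 + κ * (6 * (20000 * (S.H n : ℝ) ^ 5) ^ 2)) ^ α * S.b n ^ 2 := by
    intro η _
    refine mul_le_mul_of_nonneg_right ?_ (sq_nonneg _)
    refine Real.rpow_le_rpow (by have := hev ⟨n, η⟩; linarith) ?_ hα0
    have := (ev_bound hκ (S.two n) η.2).2
    unfold ee
    linarith
  refine (Finset.sum_le_sum h1).trans ?_
  rw [Finset.sum_const, Finset.card_univ, Fintype.card_coe, box_card, nsmul_eq_mul]
  push_cast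
  refine le_trans (le_of_eq ?_) (S.sob n)
  ring

lemma sq_summable (hκ : 0 < κ) (hα0 : 0 ≤ α) (S : Hump κ α) (t : ℝ) :
    Summable fun k : JJ S => ‖aa S t k‖ ^ 2 := by
  simp_rw [aa_norm]
  refine Summable.of_nonneg_of_le (fun k => sq_nonneg _) (fun k => ?_) (sob_summable hκ hα0 S)
  have hev : 0 ≤ ev κ (ee S k) := (ev_bound hκ (S.two _) k.2.2).1
  have h1 : 1 ≤ (1 + ev κ (ee S k)) ^ α := Real.one_le_rpow (by linarith) hα0
  nlinarith [sq_nonneg (S.b k.1)]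

/-- the solution -/
noncomputable def uu (S : Hump κ α) (t : ℝ) : Lp ℂ 2 (nu Ix) := ∑' k, aa S t k • EE S k

lemma uu_hasSum (hκ : 0 < κ) (hα0 : 0 ≤ α) (S : Hump κ α) (t : ℝ) :
    HasSum (fun k => aa S t k • EE S k) (uu S t) :=
  (orth_summable (EE_orthonormal S) (sq_summable hκ hα0 S t)).hasSum

/-- one block -/
noncomputable def blk (S : Hump κ α) (n : ℕ) (t : ℝ) : Lp ℂ 2 (nu Ix) :=
  ∑ η : box (S.H n), aa S t ⟨n, η⟩ • EE S ⟨n, η⟩

lemma blk_coe (S : Hump κ α) (n : ℕ) (t : ℝ) :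
    (blk S n t : (Ix → S3) → ℂ) =ᵐ[nu Ix] fun x => (S.b n : ℂ) * Bl κ (S.H n) t x := by
  unfold blk
  have h1 := Lp.coeFn_fun_finsetSum Finset.univ
    (fun η : box (S.H n) => aa S t ⟨n, η⟩ • EE S ⟨n, η⟩)
  have h2 : ∀ᵐ x ∂nu Ix, ∀ η : box (S.H n), (aa S t ⟨n, η⟩ • EE S ⟨n, η⟩ : Lp ℂ 2 (nu Ix)) x =
      aa S t ⟨n, η⟩ * ez (kq (S.H n) η.1) x := by
    rw [ae_all_iff]
    intro η
    filter_upwards [Lp.coeFn_smul (aa S t ⟨n, η⟩) (EE S ⟨n, η⟩), EZ_coe (ee S ⟨n, η⟩)]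
      with x hx1 hx2
    rw [hx1, Pi.smul_apply, smul_eq_mul]
    unfold EE
    rw [hx2]
    rfl
  filter_upwards [h1, h2] with x hx1 hx2
  rw [hx1]
  simp_rw [hx2]
  unfold Bl
  rw [Finset.mul_sum, ← Finset.sum_coe_sort (box (S.H n))]
  refine Finset.sum_congr rfl fun η _ => ?_
  unfold aa ee
  ring

lemma head_hasSum (S : Hump κ α) (t : ℝ) (n : ℕ) :
    HasSum (fun k : JJ S => if k.1 ≤ n then aa S t k • EE S k else 0)
      (∑ m ∈ Finset.range (n + 1), blk S m t) := by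
  have h : HasSum (fun k : JJ S => if k.1 ≤ n then aa S t k • EE S k else 0)
      (∑ k ∈ (Finset.range (n + 1)).sigma fun m => (Finset.univ : Finset (box (S.H m))),
        if k.1 ≤ n then aa S t k • EE S k else 0) := by
    refine hasSum_sum_of_ne_finset_zero ?_
    intro k hk
    rw [if_neg]
    intro h
    apply hk
    rw [Finset.mem_sigma]
    exact ⟨Finset.mem_range.mpr (by omega), Finset.mem_univ _⟩
  convert h using 1
  rw [Finset.sum_sigma]
  refine Finset.sum_congr rfl fun m hm => Finset.sum_congr rfl fun η _ => ?_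
  rw [if_pos]
  have := Finset.mem_range.mp hm
  show m ≤ n
  omega

/-- the remainder -/
noncomputable def rr (S : Hump κ α) (t : ℝ) (n : ℕ) : Lp ℂ 2 (nu Ix) :=
  uu S t - ∑ m ∈ Finset.range (n + 1), blk S m t

lemma rr_norm (hκ : 0 < κ) (hα0 : 0 ≤ α) (S : Hump κ α) (t : ℝ) (n : ℕ) :
    ‖rr S t n‖ ^ 2 * MM (S.H n) ≤ 2 * (1 / 2) ^ n := by
  have h1 : HasSum (fun k : JJ S => (if k.1 ≤ n then 0 else aa S t k) • EE S k) (rr S t n) := by
    refine ((uu_hasSum hκ hα0 S t).sub (head_hasSum S t n)).congr_fun ?_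
    intro k
    split_ifs <;> simp
  have h2 := orth_hasSum (EE_orthonormal S) h1
  have h3 : ∀ m, HasSum (fun η : box (S.H m) =>
      ‖(if (⟨m, η⟩ : JJ S).1 ≤ n then (0 : ℂ) else aa S t ⟨m, η⟩)‖ ^ 2)
      (if m ≤ n then 0 else (S.H m : ℝ) ^ 6 * S.b m ^ 2) := by
    intro m
    have := hasSum_fintype (fun η : box (S.H m) =>
      ‖(if (⟨m, η⟩ : JJ S).1 ≤ n then (0 : ℂ) else aa S t ⟨m, η⟩)‖ ^ 2)
    convert this using 1
    by_cases hm : m ≤ n
    · simp [hm]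
    · simp only [hm, if_false]
      simp_rw [aa_norm]
      rw [Finset.sum_const, Finset.card_univ, Fintype.card_coe, box_card, nsmul_eq_mul]
      push_cast
      rfl
  have h4 : HasSum (fun m => if m ≤ n then 0 else (S.H m : ℝ) ^ 6 * S.b m ^ 2)
      (‖rr S t n‖ ^ 2) := h2.sigma h3
  have h5 : HasSum (fun m : ℕ => (1 / 2 : ℝ) ^ n * (1 / 2) ^ m) ((1 / 2) ^ n * 2) :=
    hasSum_geometric_two.mul_left _
  have h6 := h4.mul_right (MM (S.H n) : ℝ)
  rw [mul_comm (2 : ℝ)]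
  refine hasSum_le (fun m => ?_) h6 h5
  by_cases hm : m ≤ n
  · simp only [hm, if_true, zero_mul]
    positivity
  · simp only [hm, if_false]
    have h7 := S.tail n m (by omega)
    have h8 : (1 / 4 : ℝ) ^ m = (1 / 2) ^ m * (1 / 2) ^ m := by
      rw [← mul_pow]; norm_num
    have h9 : (1 / 2 : ℝ) ^ m ≤ (1 / 2) ^ n :=
      pow_le_pow_of_le_one (by norm_num) (by norm_num) (by omega)
    calc (S.H m : ℝ) ^ 6 * S.b m ^ 2 * MM (S.H n) = S.b m ^ 2 * (S.H m : ℝ) ^ 6 * MM (S.H n) := by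
          ring
      _ ≤ (1 / 4) ^ m := h7
      _ = (1 / 2) ^ m * (1 / 2) ^ m := h8
      _ ≤ (1 / 2) ^ n * (1 / 2) ^ m := mul_le_mul_of_nonneg_right h9 (by positivity)

end Pool.Agent.Work.MP_5fc0ff_an
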