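import Mathlib

set_option autoImplicit false

open Set Filter Topology MeasureTheory MeasureTheory.Measure
open scoped ENNReal Real

namespace Pool.Agent.Work.MP_5fc0ff_an

/-- General polar coordinates for the Lebesgue integral. -/
lemma polar_lintegral {E : Type*} [NormedAddCommGroup E] [NormedSpace ℝ E] [MeasurableSpace E]
    [BorelSpace E] [FiniteDimensional ℝ E] [Nontrivial E] (μ : Measure E) [μ.IsAddHaarMeasure]
    (F : E → ℝ≥0∞) :
    ∫⁻ x, F x ∂μ = ∫⁻ p : Metric.sphere (0 : E) 1 × Ioi (0 : ℝ), F ((p.2 : ℝ) • (p.1 : E))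
      ∂(μ.toSphere.prod (volumeIoiPow (Module.finrank ℝ E - 1))) := by
  have h1 := μ.measurePreserving_homeomorphUnitSphereProd.lintegral_comp_emb
    (Homeomorph.measurableEmbedding _)
    (fun p : Metric.sphere (0 : E) 1 × Ioi (0 : ℝ) => F ((p.2 : ℝ) • (p.1 : E)))
  rw [← h1]
  have h2 : ∀ a : ({0}ᶜ : Set E), F (((homeomorphUnitSphereProd E a).2 : ℝ) •
      ((homeomorphUnitSphereProd E a).1 : E)) = F a.1 := by
    intro a
    congr 1
    have ha : (a : E) ≠ 0 := a.2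
    simp [homeomorphUnitSphereProd, smul_smul, norm_ne_zero_iff.mpr ha]
  simp_rw [h2]
  rw [lintegral_subtype_comap (measurableSet_singleton _).compl, restrict_compl_singleton]

/-- Radial functions. -/
lemma radial_lintegral {E : Type*} [NormedAddCommGroup E] [NormedSpace ℝ E] [MeasurableSpace E]
    [BorelSpace E] [FiniteDimensional ℝ E] [Nontrivial E] (μ : Measure E) [μ.IsAddHaarMeasure]
    {ψ : ℝ → ℝ≥0∞} (hψ : Measurable ψ) :
    ∫⁻ x, ψ ‖x‖ ∂μ = μ.toSphere univ *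
      ∫⁻ r in Ioi (0 : ℝ), ENNReal.ofReal (r ^ (Module.finrank ℝ E - 1)) * ψ r := by
  rw [polar_lintegral μ (fun x => ψ ‖x‖)]
  have h1 : ∀ p : Metric.sphere (0 : E) 1 × Ioi (0 : ℝ), ψ ‖(p.2 : ℝ) • (p.1 : E)‖ =
      (fun _ : Metric.sphere (0 : E) 1 => (1 : ℝ≥0∞)) p.1 * ψ (p.2 : ℝ) := by
    intro p
    have h2 : ‖(p.1 : E)‖ = 1 := by simp
    have h3 : (0 : ℝ) < p.2 := p.2.2
    rw [norm_smul, h2, mul_one, Real.norm_eq_abs, abs_of_pos h3, one_mul]
  simp_rw [h1]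
  have hm : Measurable fun r : Ioi (0 : ℝ) => ψ r := hψ.comp measurable_subtype_coe
  rw [lintegral_prod_mul (f := fun _ : Metric.sphere (0 : E) 1 => (1 : ℝ≥0∞))
    (g := fun r : Ioi (0 : ℝ) => ψ r) aemeasurable_const
    hm.aemeasurable, lintegral_one, volumeIoiPow,
    lintegral_withDensity_eq_lintegral_mul _
      ((measurable_subtype_coe.pow_const _).ennreal_ofReal) hm]
  congr 1
  exact lintegral_subtype_comap measurableSet_Ioi
    (fun r => ENNReal.ofReal (r ^ (Module.finrank ℝ E - 1)) * ψ r)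

/-- `ℝ⁴`. -/
abbrev E4 := EuclideanSpace ℝ (Fin 4)

/-- `ℝ³`. -/
abbrev E3 := EuclideanSpace ℝ (Fin 3)

lemma split_lintegral (F : ℝ → E3 → ℝ≥0∞) (hF : Measurable fun p : ℝ × E3 => F p.1 p.2) :
    ∫⁻ x : E4, F (x 0) (WithLp.toLp 2 fun i : Fin 3 => x i.succ) = ∫⁻ a : ℝ, ∫⁻ v : E3, F a v := by
  have h1 := (PiLp.volume_preserving_toLp (Fin 4)).lintegral_comp_emb
    (MeasurableEquiv.toLp 2 (Fin 4 → ℝ)).measurableEmbedding
    (fun x : E4 => F (x 0) (WithLp.toLp 2 fun i : Fin 3 => x i.succ))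
  rw [← h1]
  have h2 := (volume_preserving_piFinSuccAbove (fun _ : Fin 4 => ℝ) 0).lintegral_comp_emb
    (MeasurableEquiv.piFinSuccAbove (fun _ : Fin 4 => ℝ) 0).measurableEmbedding
    (fun p : ℝ × (Fin 3 → ℝ) => F p.1 (WithLp.toLp 2 p.2))
  have h3 : ∀ x : Fin 4 → ℝ, F ((WithLp.toLp 2 x : E4) 0)
      (WithLp.toLp 2 fun i : Fin 3 => (WithLp.toLp 2 x : E4) i.succ) =
      (fun p : ℝ × (Fin 3 → ℝ) => F p.1 (WithLp.toLp 2 p.2))
        (MeasurableEquiv.piFinSuccAbove (fun _ : Fin 4 => ℝ) 0 x) := by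
    intro x
    rfl
  simp_rw [h3]
  rw [h2, Measure.volume_eq_prod, lintegral_prod]
  · refine lintegral_congr fun a => ?_
    exact (PiLp.volume_preserving_toLp (Fin 3)).lintegral_comp_emb
      (MeasurableEquiv.toLp 2 (Fin 3 → ℝ)).measurableEmbedding (fun v => F a v)
  · refine Measurable.aemeasurable ?_
    exact hF.comp (measurable_fst.prodMk
      ((MeasurableEquiv.toLp 2 (Fin 3 → ℝ)).measurable.comp measurable_snd))

/-- total mass of the two-sphere -/
noncomputable def C3 : ℝ≥0∞ := (volume : Measure E3).toSphere univ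

lemma norm_split (x : E4) :
    ‖x‖ = Real.sqrt ((x 0) ^ 2 + ‖(WithLp.toLp 2 fun i : Fin 3 => x i.succ : E3)‖ ^ 2) := by
  rw [EuclideanSpace.norm_eq, EuclideanSpace.norm_eq, Real.sq_sqrt (by positivity),
    Fin.sum_univ_succ]
  simp

/-- the kernel -/
noncomputable def Ker (h : ℝ → ℝ≥0∞) (a r : ℝ) : ℝ≥0∞ := (Iio (1 : ℝ)).indicator (fun _ => h (a / r)) r

lemma Ker_measurable {h : ℝ → ℝ≥0∞} (hh : Measurable h) :
    Measurable fun p : ℝ × ℝ => Ker h p.1 p.2 := by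
  have h1 : (fun p : ℝ × ℝ => Ker h p.1 p.2) =
      ((fun p : ℝ × ℝ => p.2) ⁻¹' Iio (1 : ℝ)).indicator (fun p => h (p.1 / p.2)) := by
    ext p
    unfold Ker
    by_cases hp : p.2 < 1
    · rw [indicator_of_mem (show p.2 ∈ Iio (1 : ℝ) from hp), indicator_of_mem (show p ∈ _ from hp)]
    · rw [indicator_of_notMem (show p.2 ∉ Iio (1 : ℝ) from hp),
        indicator_of_notMem (show p ∉ _ from hp)]
  rw [h1]
  exact (hh.comp (measurable_fst.div measurable_snd)).indicator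
    (measurable_snd measurableSet_Iio)

/-- left side -/
lemma left_side {h : ℝ → ℝ≥0∞} (hh : Measurable h) :
    ∫⁻ x : E4, Ker h (x 0) ‖x‖ =
      (∫⁻ x : Metric.sphere (0 : E4) 1, h (x.1 0) ∂(volume : Measure E4).toSphere) *
        ENNReal.ofReal (1 / 4) := by
  rw [polar_lintegral volume (fun x : E4 => Ker h (x 0) ‖x‖)]
  have h1 : ∀ p : Metric.sphere (0 : E4) 1 × Ioi (0 : ℝ),
      Ker h (((p.2 : ℝ) • (p.1 : E4)) 0) ‖(p.2 : ℝ) • (p.1 : E4)‖ =
        h (p.1.1 0) * (Iio (1 : ℝ)).indicator (fun _ => (1 : ℝ≥0∞)) (p.2 : ℝ) := by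
    intro p
    have h2 : ‖(p.1 : E4)‖ = 1 := by simp
    have h3 : (0 : ℝ) < p.2 := p.2.2
    have h4 : ((p.2 : ℝ) • (p.1 : E4)) 0 = p.2 * (p.1 : E4) 0 := rfl
    rw [norm_smul, h2, mul_one, Real.norm_eq_abs, abs_of_pos h3, h4]
    unfold Ker
    by_cases hp : (p.2 : ℝ) < 1
    · rw [indicator_of_mem (show (p.2 : ℝ) ∈ Iio (1 : ℝ) from hp),
        indicator_of_mem (show (p.2 : ℝ) ∈ Iio (1 : ℝ) from hp), mul_one,
        mul_div_cancel_left₀ _ h3.ne']
    · rw [indicator_of_notMem (show (p.2 : ℝ) ∉ Iio (1 : ℝ) from hp),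
        indicator_of_notMem (show (p.2 : ℝ) ∉ Iio (1 : ℝ) from hp), mul_zero]
  simp_rw [h1]
  have hm1 : Measurable fun x : Metric.sphere (0 : E4) 1 => h (x.1 0) := by
    refine hh.comp ?_
    exact (by fun_prop : Measurable fun x : E4 => x 0).comp measurable_subtype_coe
  have hm2 : Measurable fun r : Ioi (0 : ℝ) =>
      (Iio (1 : ℝ)).indicator (fun _ => (1 : ℝ≥0∞)) (r : ℝ) :=
    (measurable_const.indicator measurableSet_Iio).comp measurable_subtype_coe
  rw [lintegral_prod_mul hm1.aemeasurable hm2.aemeasurable]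
  congr 1
  have h5 : (fun r : Ioi (0 : ℝ) => (Iio (1 : ℝ)).indicator (fun _ => (1 : ℝ≥0∞)) (r : ℝ)) =
      (Iio (⟨1, mem_Ioi.2 one_pos⟩ : Ioi (0 : ℝ))).indicator (fun _ => (1 : ℝ≥0∞)) := by
    ext r
    by_cases hr : (r : ℝ) < 1
    · rw [indicator_of_mem (show (r : ℝ) ∈ Iio (1 : ℝ) from hr), indicator_of_mem (show r ∈ _ from hr)]
    · rw [indicator_of_notMem (show (r : ℝ) ∉ Iio (1 : ℝ) from hr),
        indicator_of_notMem (show r ∉ _ from hr)]
  rw [h5]
  have h6 : lintegral (volumeIoiPow (Module.finrank ℝ E4 - 1))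
      ((Iio (⟨1, mem_Ioi.2 one_pos⟩ : Ioi (0 : ℝ))).indicator fun _ => (1 : ℝ≥0∞)) =
      volumeIoiPow (Module.finrank ℝ E4 - 1) (Iio (⟨1, mem_Ioi.2 one_pos⟩ : Ioi (0 : ℝ))) :=
    lintegral_indicator_one measurableSet_Iio
  rw [h6, volumeIoiPow_apply_Iio]
  congr 1
  have : Module.finrank ℝ E4 = 4 := by simp
  rw [this]
  norm_num

lemma ind_mul (s : Set ℝ) (f : ℝ → ℝ≥0∞) (r : ℝ) :
    s.indicator f r = s.indicator (fun _ => (1 : ℝ≥0∞)) r * f r := by
  by_cases hr : r ∈ s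
  · rw [indicator_of_mem hr, indicator_of_mem hr, one_mul]
  · rw [indicator_of_notMem hr, indicator_of_notMem hr, zero_mul]

/-- right side -/
lemma right_side {h : ℝ → ℝ≥0∞} (hh : Measurable h) :
    ∫⁻ x : E4, Ker h (x 0) ‖x‖ = C3 *
      (ENNReal.ofReal (1 / 4) *
        ∫⁻ θ in Ioo (0 : ℝ) π, ENNReal.ofReal (Real.sin θ ^ 2) * h (Real.cos θ)) := by
  have hKm := Ker_measurable hh
  -- split off the first coordinate
  have h1 : ∀ x : E4, Ker h (x 0) ‖x‖ =
      (fun (a : ℝ) (v : E3) => Ker h a (Real.sqrt (a ^ 2 + ‖v‖ ^ 2))) (x 0)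
        (WithLp.toLp 2 fun i : Fin 3 => x i.succ) := by
    intro x
    simp only
    rw [← norm_split]
  simp_rw [h1]
  rw [split_lintegral (fun (a : ℝ) (v : E3) => Ker h a (Real.sqrt (a ^ 2 + ‖v‖ ^ 2))) (by
    refine hKm.comp (measurable_fst.prodMk ?_)
    fun_prop)]
  have h2 : ∀ a : ℝ, ∫⁻ v : E3, Ker h a (Real.sqrt (a ^ 2 + ‖v‖ ^ 2)) =
      C3 * ∫⁻ r in Ioi (0 : ℝ), ENNReal.ofReal (r ^ 2) * Ker h a (Real.sqrt (a ^ 2 + r ^ 2)) := by
    intro a
    have := radial_lintegral (volume : Measure E3)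
      (ψ := fun r => Ker h a (Real.sqrt (a ^ 2 + r ^ 2))) (by
        refine hKm.comp (measurable_const.prodMk ?_)
        fun_prop)
    rw [this]
    have h3 : Module.finrank ℝ E3 - 1 = 2 := by simp
    rw [h3]
    rfl
  simp_rw [h2]
  have hm3 : Measurable fun p : ℝ × ℝ =>
      ENNReal.ofReal (p.2 ^ 2) * Ker h p.1 (Real.sqrt (p.1 ^ 2 + p.2 ^ 2)) := by
    refine Measurable.mul (by fun_prop) (hKm.comp (measurable_fst.prodMk ?_))
    fun_prop
  rw [lintegral_const_mul' _ _ (by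
    unfold C3
    exact measure_ne_top _ _)]
  congr 1
  -- turn it into an integral over the plane
  have h4 : ∫⁻ a : ℝ, ∫⁻ r in Ioi (0 : ℝ), ENNReal.ofReal (r ^ 2) *
      Ker h a (Real.sqrt (a ^ 2 + r ^ 2)) =
      ∫⁻ p : ℝ × ℝ, (Ioi (0 : ℝ)).indicator (fun _ => (1 : ℝ≥0∞)) p.2 *
        (ENNReal.ofReal (p.2 ^ 2) * Ker h p.1 (Real.sqrt (p.1 ^ 2 + p.2 ^ 2))) := by
    rw [Measure.volume_eq_prod, lintegral_prod]
    · refine lintegral_congr fun a => ?_
      rw [← lintegral_indicator measurableSet_Ioi]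
      refine lintegral_congr fun r => ?_
      exact ind_mul _ _ _
    · exact (((measurable_const.indicator measurableSet_Ioi).comp measurable_snd).mul
        hm3).aemeasurable
  rw [h4, ← lintegral_comp_polarCoord_symm]
  have h5 : ∀ p : ℝ × ℝ, p ∈ polarCoord.target → ENNReal.ofReal p.1 •
      ((Ioi (0 : ℝ)).indicator (fun _ => (1 : ℝ≥0∞)) (polarCoord.symm p).2 *
        (ENNReal.ofReal ((polarCoord.symm p).2 ^ 2) *
          Ker h (polarCoord.symm p).1
            (Real.sqrt ((polarCoord.symm p).1 ^ 2 + (polarCoord.symm p).2 ^ 2)))) =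
      (ENNReal.ofReal (p.1 ^ 3) * (Iio (1 : ℝ)).indicator (fun _ => (1 : ℝ≥0∞)) p.1) *
      ((Ioi (0 : ℝ)).indicator (fun _ => (1 : ℝ≥0∞)) p.2 *
        (ENNReal.ofReal (Real.sin p.2 ^ 2) * h (Real.cos p.2))) := by
    intro p hp
    rw [polarCoord_target] at hp
    obtain ⟨hp1, hp2⟩ := hp
    have hp1 : 0 < p.1 := hp1
    rw [polarCoord_symm_apply]
    simp only
    have e1 : Real.sqrt ((p.1 * Real.cos p.2) ^ 2 + (p.1 * Real.sin p.2) ^ 2) = p.1 := by
      have : (p.1 * Real.cos p.2) ^ 2 + (p.1 * Real.sin p.2) ^ 2 = p.1 ^ 2 := by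
        have := Real.sin_sq_add_cos_sq p.2
        nlinarith
      rw [this, Real.sqrt_sq hp1.le]
    have e2 : (Ioi (0 : ℝ)).indicator (fun _ => (1 : ℝ≥0∞)) (p.1 * Real.sin p.2) =
        (Ioi (0 : ℝ)).indicator (fun _ => (1 : ℝ≥0∞)) p.2 := by
      by_cases hθ : 0 < p.2
      · have : 0 < p.1 * Real.sin p.2 := mul_pos hp1 (Real.sin_pos_of_pos_of_lt_pi hθ hp2.2)
        rw [indicator_of_mem (show _ ∈ Ioi (0 : ℝ) from this),
          indicator_of_mem (show _ ∈ Ioi (0 : ℝ) from hθ)]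
      · have h6 : Real.sin p.2 ≤ 0 :=
          Real.sin_nonpos_of_nonpos_of_neg_pi_le (not_lt.mp hθ) hp2.1.le
        have : ¬ (0 < p.1 * Real.sin p.2) := by
          push Not
          exact mul_nonpos_of_nonneg_of_nonpos hp1.le h6
        rw [indicator_of_notMem (show _ ∉ Ioi (0 : ℝ) from this),
          indicator_of_notMem (show _ ∉ Ioi (0 : ℝ) from hθ)]
    rw [e1, e2]
    unfold Ker
    rw [ind_mul (Iio (1 : ℝ)) (fun _ => h (p.1 * Real.cos p.2 / p.1)) p.1,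
      mul_div_cancel_left₀ _ hp1.ne', smul_eq_mul]
    have e3 : ENNReal.ofReal ((p.1 * Real.sin p.2) ^ 2) =
        ENNReal.ofReal (p.1 ^ 2) * ENNReal.ofReal (Real.sin p.2 ^ 2) := by
      rw [mul_pow, ENNReal.ofReal_mul (by positivity)]
    have e4 : ENNReal.ofReal (p.1 ^ 3) = ENNReal.ofReal p.1 * ENNReal.ofReal (p.1 ^ 2) := by
      rw [← ENNReal.ofReal_mul hp1.le]
      congr 1
      ring
    rw [e3, e4]
    ring
  rw [setLIntegral_congr_fun (polarCoord.open_target.measurableSet) h5, polarCoord_target,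
    Measure.volume_eq_prod, ← Measure.prod_restrict]
  have hma : Measurable fun r : ℝ =>
      ENNReal.ofReal (r ^ 3) * (Iio (1 : ℝ)).indicator (fun _ => (1 : ℝ≥0∞)) r :=
    Measurable.mul (by fun_prop) (measurable_const.indicator measurableSet_Iio)
  have hmb : Measurable fun θ : ℝ => (Ioi (0 : ℝ)).indicator (fun _ => (1 : ℝ≥0∞)) θ *
        (ENNReal.ofReal (Real.sin θ ^ 2) * h (Real.cos θ)) :=
    (measurable_const.indicator measurableSet_Ioi).mul
      (Measurable.mul (by fun_prop) (hh.comp Real.measurable_cos))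
  rw [lintegral_prod_mul (f := fun r : ℝ =>
      ENNReal.ofReal (r ^ 3) * (Iio (1 : ℝ)).indicator (fun _ => (1 : ℝ≥0∞)) r)
    (g := fun θ : ℝ => (Ioi (0 : ℝ)).indicator (fun _ => (1 : ℝ≥0∞)) θ *
        (ENNReal.ofReal (Real.sin θ ^ 2) * h (Real.cos θ))) hma.aemeasurable hmb.aemeasurable]
  congr 1
  · -- the radial integral
    have e1 : ∀ r : ℝ, ENNReal.ofReal (r ^ 3) * (Iio (1 : ℝ)).indicator (fun _ => (1 : ℝ≥0∞)) r =
        (Iio (1 : ℝ)).indicator (fun r => ENNReal.ofReal (r ^ 3)) r := by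
      intro r
      rw [ind_mul (Iio (1 : ℝ)) (fun r => ENNReal.ofReal (r ^ 3)), mul_comm]
    simp_rw [e1]
    rw [lintegral_indicator measurableSet_Iio, Measure.restrict_restrict measurableSet_Iio,
      Iio_inter_Ioi, restrict_congr_set Ioo_ae_eq_Ioc,
      ← ofReal_integral_eq_lintegral_ofReal (by
        have := (intervalIntegral.intervalIntegrable_pow (a := 0) (b := 1) (μ := volume) 3).1
        exact this) (by
        filter_upwards [ae_restrict_mem measurableSet_Ioc] with y hy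
        exact pow_nonneg hy.1.le _), ← intervalIntegral.integral_of_le zero_le_one, integral_pow]
    norm_num only
  · -- the angular integral
    have e1 : ∀ θ : ℝ, (Ioi (0 : ℝ)).indicator (fun _ => (1 : ℝ≥0∞)) θ *
        (ENNReal.ofReal (Real.sin θ ^ 2) * h (Real.cos θ)) =
        (Ioi (0 : ℝ)).indicator (fun θ => ENNReal.ofReal (Real.sin θ ^ 2) * h (Real.cos θ)) θ := by
      intro θ
      rw [ind_mul (Ioi (0 : ℝ)) (fun θ => ENNReal.ofReal (Real.sin θ ^ 2) * h (Real.cos θ))]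
    simp_rw [e1]
    rw [lintegral_indicator measurableSet_Ioi, Measure.restrict_restrict measurableSet_Ioi]
    congr 2
    ext θ
    simp only [mem_inter_iff, mem_Ioi, mem_Ioo]
    constructor
    · rintro ⟨h1, -, h2⟩
      exact ⟨h1, h2⟩
    · rintro ⟨h1, h2⟩
      exact ⟨h1, by linarith [Real.pi_pos], h2⟩

/-- The law of the first coordinate on the three-sphere. -/
theorem sphere_law {h : ℝ → ℝ≥0∞} (hh : Measurable h) :
    ∫⁻ x : Metric.sphere (0 : E4) 1, h (x.1 0) ∂(volume : Measure E4).toSphere =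
      C3 * ∫⁻ θ in Ioo (0 : ℝ) π, ENNReal.ofReal (Real.sin θ ^ 2) * h (Real.cos θ) := by
  have h1 := (left_side hh).symm.trans (right_side hh)
  have h2 : ENNReal.ofReal (1 / 4) ≠ 0 := by simp
  have h3 : ENNReal.ofReal (1 / 4) ≠ ∞ := ENNReal.ofReal_ne_top
  have h4 : C3 * (ENNReal.ofReal (1 / 4) *
      ∫⁻ θ in Ioo (0 : ℝ) π, ENNReal.ofReal (Real.sin θ ^ 2) * h (Real.cos θ)) =
      (C3 * ∫⁻ θ in Ioo (0 : ℝ) π, ENNReal.ofReal (Real.sin θ ^ 2) * h (Real.cos θ)) *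
        ENNReal.ofReal (1 / 4) := by ring
  rw [h4] at h1
  exact (ENNReal.mul_left_inj h2 h3).mp h1

end Pool.Agent.Work.MP_5fc0ff_an
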