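import Pool.Agent.Work.MP_5fc0ff_an.Surf

set_option autoImplicit false

open Set Filter Topology MeasureTheory MeasureTheory.Measure
open scoped ENNReal Real

namespace Pool.Agent.Work.MP_5fc0ff_an

variable {ι : Type} [Fintype ι]

/-- The product measure. -/
noncomputable def nu (ι : Type) [Fintype ι] : Measure (ι → S3) := Measure.pi fun _ => surf

instance : IsProbabilityMeasure (nu ι) := by
  unfold nu
  infer_instance

/-- The weighted angle. -/
noncomputable def wang (w : ι → ℤ) (x : ι → S3) : ℝ := ∑ i, (w i : ℝ) * ang (x i)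

lemma wang_measurable (w : ι → ℤ) : Measurable (wang w) := by
  unfold wang
  refine Finset.measurable_fun_sum _ fun i _ => ?_
  exact measurable_const.mul (ang_measurable.comp (measurable_pi_apply i))

/-- characters -/
noncomputable def chi (w : ι → ℤ) (x : ι → S3) : ℂ := Complex.exp (2 * Complex.I * (wang w x : ℝ))

lemma chi_measurable (w : ι → ℤ) : Measurable (chi w) := by
  unfold chi
  have := wang_measurable w
  fun_prop

lemma chi_norm (w : ι → ℤ) (x : ι → S3) : ‖chi w x‖ = 1 := by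
  unfold chi
  have : 2 * Complex.I * ((wang w x : ℝ) : ℂ) = ((2 * wang w x : ℝ) : ℂ) * Complex.I := by
    push_cast; ring
  rw [this, Complex.norm_exp_ofReal_mul_I]

lemma integral_chi {w : ι → ℤ} (hw : ∃ i, 2 ≤ |w i|) : ∫ x, chi w x ∂(nu ι) = 0 := by
  obtain ⟨i, hi⟩ := hw
  have h1 : ∀ x : ι → S3, chi w x =
      ∏ i, (fun y : S3 => Complex.exp (2 * Complex.I * (w i : ℂ) * (ang y : ℂ))) (x i) := by
    intro x
    unfold chi wang
    rw [← Complex.exp_sum]
    congr 1
    push_cast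
    rw [Finset.mul_sum]
    exact Finset.sum_congr rfl fun i _ => by ring
  rw [integral_congr_ae (Eventually.of_forall h1)]
  unfold nu
  have h2 := integral_fintype_prod_eq_prod (μ := fun _ : ι => surf)
    (fun i (y : S3) => Complex.exp (2 * Complex.I * (w i : ℂ) * (ang y : ℂ)))
  rw [h2]
  exact Finset.prod_eq_zero (Finset.mem_univ i) (integral_char hi)

lemma chi_pow_mul (w : ι → ℤ) (x : ι → S3) (l m : ℕ) :
    chi w x ^ l * (starRingEnd ℂ) (chi w x ^ m) = chi (fun i => ((l : ℤ) - m) * w i) x := by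
  unfold chi
  rw [← Complex.exp_nat_mul, ← Complex.exp_nat_mul, ← Complex.exp_conj, ← Complex.exp_add]
  congr 1
  simp only [map_mul, Complex.conj_I, map_natCast, Complex.conj_ofReal, map_ofNat]
  have : wang (fun i => ((l : ℤ) - m) * w i) x = ((l : ℝ) - m) * wang w x := by
    unfold wang
    rw [Finset.mul_sum]
    refine Finset.sum_congr rfl fun i _ => ?_
    push_cast
    ring
  rw [this]
  push_cast
  ring

lemma norm_pow_sub_one_le {z : ℂ} (hz : ‖z‖ = 1) (l : ℕ) : ‖z ^ l - 1‖ ≤ l * ‖z - 1‖ := by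
  induction l with
  | zero => simp
  | succ l ih =>
    have : z ^ (l + 1) - 1 = z ^ l * (z - 1) + (z ^ l - 1) := by ring
    rw [this]
    refine (norm_add_le _ _).trans ?_
    rw [norm_mul, norm_pow, hz, one_pow, one_mul]
    push_cast
    linarith

/-- The set where a character is close to one is small. -/
lemma bad_set {w : ι → ℤ} (hw : ∃ i, 2 ≤ |w i|) {L : ℕ} (hL : 1 ≤ L) {δ : ℝ} (hδ : δ * L ≤ 1) :
    (nu ι) {x | ‖chi w x - 1‖ < δ} ≤ ENNReal.ofReal (4 / L) := by
  have hL0 : (0 : ℝ) < L := by exact_mod_cast hL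
  set S : (ι → S3) → ℂ := fun x => ∑ l ∈ Finset.range L, chi w x ^ l with hS
  have hSm : Measurable S := Finset.measurable_fun_sum _ fun l _ => (chi_measurable w).pow_const l
  have hSb : ∀ x, ‖S x‖ ≤ L := by
    intro x
    refine (norm_sum_le _ _).trans ?_
    refine (Finset.sum_le_sum fun l _ => (by rw [norm_pow, chi_norm, one_pow] :
      ‖chi w x ^ l‖ ≤ 1)).trans ?_
    simp
  -- the second moment
  have hsq : ∀ x, ((‖S x‖ ^ 2 : ℝ) : ℂ) =
      ∑ l ∈ Finset.range L, ∑ m ∈ Finset.range L, chi (fun i => ((l : ℤ) - m) * w i) x := by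
    intro x
    have h1 : ((‖S x‖ ^ 2 : ℝ) : ℂ) = S x * (starRingEnd ℂ) (S x) := by
      rw [Complex.mul_conj, Complex.normSq_eq_norm_sq]
    rw [h1, hS]
    simp only [_root_.map_sum]
    rw [Finset.sum_mul_sum]
    exact Finset.sum_congr rfl fun l _ => Finset.sum_congr rfl fun m _ => chi_pow_mul w x l m
  have hint : ∀ w' : ι → ℤ, Integrable (chi w') (nu ι) := fun w' =>
    Integrable.of_bound (chi_measurable w').aestronglyMeasurable 1
      (Eventually.of_forall fun x => (chi_norm w' x).le)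
  have hmom : ∫ x, ((‖S x‖ ^ 2 : ℝ) : ℂ) ∂(nu ι) = L := by
    simp_rw [hsq]
    rw [integral_finsetSum _ fun l _ => integrable_finsetSum _ fun m _ => hint _]
    have h2 : ∀ l ∈ Finset.range L, ∫ x, ∑ m ∈ Finset.range L,
        chi (fun i => ((l : ℤ) - m) * w i) x ∂(nu ι) = 1 := by
      intro l hl
      rw [integral_finsetSum _ fun m _ => hint _]
      rw [Finset.sum_eq_single l]
      · have : ∀ x, chi (fun i => ((l : ℤ) - l) * w i) x = 1 := by
          intro x
          unfold chi wang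
          simp
        simp_rw [this]
        simp
      · intro m _ hml
        refine integral_chi ?_
        obtain ⟨i, hi⟩ := hw
        refine ⟨i, ?_⟩
        rw [abs_mul]
        have h3 : 1 ≤ |(l : ℤ) - m| := Int.one_le_abs (sub_ne_zero.mpr (by exact_mod_cast hml.symm))
        nlinarith [abs_nonneg (w i)]
      · intro h
        exact absurd hl h
    rw [Finset.sum_congr rfl h2]
    simp
  have hmom' : ∫ x, ‖S x‖ ^ 2 ∂(nu ι) = L := by
    rw [integral_complex_ofReal] at hmom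
    exact_mod_cast hmom
  -- lower bound on the bad set
  have hlow : {x | ‖chi w x - 1‖ < δ} ⊆ {x | (L : ℝ) ^ 2 / 4 ≤ ‖S x‖ ^ 2} := by
    intro x hx
    have hx : ‖chi w x - 1‖ < δ := hx
    have h1 : ‖S x - L‖ ≤ ∑ l ∈ Finset.range L, (l : ℝ) * ‖chi w x - 1‖ := by
      have : S x - L = ∑ l ∈ Finset.range L, (chi w x ^ l - 1) := by
        rw [Finset.sum_sub_distrib]
        simp [hS]
      rw [this]
      exact (norm_sum_le _ _).trans (Finset.sum_le_sum fun l _ =>
        norm_pow_sub_one_le (chi_norm w x) l)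
    have h2 : ∑ l ∈ Finset.range L, (l : ℝ) * ‖chi w x - 1‖ ≤ L / 2 := by
      rw [← Finset.sum_mul]
      have h3 : ∑ l ∈ Finset.range L, (l : ℝ) = L * (L - 1) / 2 := by
        have h6 : (∑ l ∈ Finset.range L, (l : ℝ)) * 2 = L * (L - 1) := by
          have := Finset.sum_range_id_mul_two L
          have h7 : ((L - 1 : ℕ) : ℝ) = L - 1 := by push_cast [hL]; ring
          rw [← h7, ← Nat.cast_mul, ← this]
          push_cast
          rfl
        linarith
      rw [h3]
      have h4 : (1 : ℝ) ≤ L := by exact_mod_cast hL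
      have h5 := norm_nonneg (chi w x - 1)
      have h6 : ‖chi w x - 1‖ * L ≤ 1 := by nlinarith
      nlinarith
    have h3 : (L : ℝ) ≤ ‖S x‖ + ‖S x - L‖ := by
      have : (L : ℂ) = S x - (S x - L) := by ring
      have h4 : ‖(L : ℂ)‖ = L := by simp
      rw [← h4]
      calc ‖(L : ℂ)‖ = ‖S x - (S x - L)‖ := by rw [← this]
        _ ≤ _ := norm_sub_le _ _
    have h4 : (L : ℝ) / 2 ≤ ‖S x‖ := by linarith
    show (L : ℝ) ^ 2 / 4 ≤ ‖S x‖ ^ 2
    nlinarith
  have hinorm : Integrable (fun x => ‖S x‖ ^ 2) (nu ι) := by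
    refine Integrable.of_bound (hSm.norm.pow_const 2).aestronglyMeasurable ((L : ℝ) ^ 2)
      (Eventually.of_forall fun x => ?_)
    rw [norm_pow, norm_norm]
    exact pow_le_pow_left₀ (norm_nonneg _) (hSb x) 2
  have hmarkov := mul_meas_ge_le_integral_of_nonneg
    (Eventually.of_forall fun x => sq_nonneg ‖S x‖) hinorm ((L : ℝ) ^ 2 / 4)
  rw [hmom'] at hmarkov
  have hreal : (nu ι).real {x | (L : ℝ) ^ 2 / 4 ≤ ‖S x‖ ^ 2} ≤ 4 / L := by
    rw [le_div_iff₀ hL0]
    have h1 : (L : ℝ) * ((nu ι).real {x | (L : ℝ) ^ 2 / 4 ≤ ‖S x‖ ^ 2} * L) ≤ L * 4 := by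
      nlinarith
    exact le_of_mul_le_mul_left h1 hL0
  refine (measure_mono hlow).trans ?_
  rw [← ofReal_measureReal]
  exact ENNReal.ofReal_le_ofReal hreal

/-- zonal products -/
noncomputable def ez (k : ι → ℕ) (x : ι → S3) : ℂ := ((∏ i, zon (k i) (x i) : ℝ) : ℂ)

lemma zon_continuous (n : ℕ) : Continuous (zon n) := by
  unfold zon
  refine (Polynomial.continuous _).comp ?_
  exact (by fun_prop : Continuous fun x : E4 => x 0).comp continuous_subtype_val

lemma ez_continuous (k : ι → ℕ) : Continuous (ez k) := by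
  unfold ez
  refine Complex.continuous_ofReal.comp ?_
  exact continuous_finsetProd _ fun i _ => (zon_continuous _).comp (continuous_apply i)

lemma ez_bdd (k : ι → ℕ) : ∃ C : ℝ, ∀ x, ‖ez k x‖ ≤ C := by
  obtain ⟨C, hC⟩ := (isCompact_range (ez_continuous k).norm).bddAbove
  exact ⟨C, fun x => hC ⟨x, rfl⟩⟩

lemma integral_ez (k l : ι → ℕ) :
    ∫ x, (starRingEnd ℂ) (ez k x) * ez l x ∂(nu ι) = if k = l then 1 else 0 := by
  have h1 : ∀ x : ι → S3, (starRingEnd ℂ) (ez k x) * ez l x =
      ∏ i, (fun y : S3 => ((zon (k i) y : ℝ) : ℂ) * ((zon (l i) y : ℝ) : ℂ)) (x i) := by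
    intro x
    unfold ez
    rw [Complex.conj_ofReal, ← Complex.ofReal_mul, ← Finset.prod_mul_distrib]
    push_cast
    rfl
  rw [integral_congr_ae (Eventually.of_forall h1)]
  unfold nu
  have h2 := integral_fintype_prod_eq_prod (μ := fun _ : ι => surf)
    (fun i (y : S3) => ((zon (k i) y : ℝ) : ℂ) * ((zon (l i) y : ℝ) : ℂ))
  rw [h2]
  simp_rw [integral_zon]
  split_ifs with h
  · subst h
    simp
  · obtain ⟨i, hi⟩ := Function.ne_iff.mp h
    exact Finset.prod_eq_zero (Finset.mem_univ i) (if_neg hi)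

lemma ez_memLp (k : ι → ℕ) : MemLp (ez k) 2 (nu ι) := by
  obtain ⟨C, hC⟩ := ez_bdd k
  exact MemLp.of_bound (ez_continuous k).aestronglyMeasurable C (Eventually.of_forall hC)

/-- the elements of `L²` -/
noncomputable def EZ (k : ι → ℕ) : Lp ℂ 2 (nu ι) := (ez_memLp k).toLp _

lemma EZ_coe (k : ι → ℕ) : EZ k =ᵐ[nu ι] ez k := (ez_memLp k).coeFn_toLp

lemma EZ_inner (k l : ι → ℕ) : inner ℂ (EZ k) (EZ l) = if k = l then (1 : ℂ) else 0 := by
  rw [L2.inner_def, ← integral_ez k l]
  refine integral_congr_ae ?_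
  filter_upwards [EZ_coe k, EZ_coe l] with x h1 h2
  rw [h1, h2]
  simp only [RCLike.inner_apply]
  ring

lemma EZ_orthonormal : Orthonormal ℂ (EZ : (ι → ℕ) → Lp ℂ 2 (nu ι)) := by
  rw [orthonormal_iff_ite]
  exact EZ_inner

end Pool.Agent.Work.MP_5fc0ff_an
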