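import Pool.Agent.Work.MP_5fc0ff_an.Eigen

set_option autoImplicit false

open Set Filter Topology
open scoped Real

namespace Pool.Agent.Work.MP_5fc0ff_an

/-- coefficient of a block -/
noncomputable def bc (n : ℕ) (A : ℝ) (H : ℕ) : ℝ := (|A| + n + 1) * 32768 / (H : ℝ) ^ 6

lemma bc_pos (n : ℕ) (A : ℝ) {H : ℕ} (hH : 0 < H) : 0 < bc n A H := by
  unfold bc
  have : (0 : ℝ) < H := by exact_mod_cast hH
  positivity

/-- The requirements on the next block. -/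
structure StepOK (κ α : ℝ) (n F M : ℕ) (A : ℝ) (H : ℕ) : Prop where
  two : 2 ≤ H
  big : F < H
  sob : bc n A H ^ 2 * (1 + κ * (6 * (20000 * (H : ℝ) ^ 5) ^ 2)) ^ α * (H : ℝ) ^ 6 ≤ (1 / 2) ^ n
  tail : bc n A H ^ 2 * (H : ℝ) ^ 6 * (M + 1) ≤ (1 / 4) ^ n
  bad : 9 * (4 / ((H / 49 : ℕ) : ℝ)) ≤ (1 / 2) ^ n
  bad1 : 1 ≤ H / 49
  time : 2 * π / (κ * (64 * (H : ℝ) ^ 2 + 1)) < 1 / (n + 1)

lemma step_exists {κ α : ℝ} (hκ : 0 < κ) (hα0 : 0 ≤ α) (hα : α < 3 / 5) (n F M : ℕ) (A : ℝ) :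
    ∃ H, StepOK κ α n F M A H := by
  have hhalf : (0 : ℝ) < (1 / 2) ^ n := by positivity
  have hcast : Tendsto (fun H : ℕ => (H : ℝ)) atTop atTop := tendsto_natCast_atTop_atTop
  set K : ℝ := (|A| + n + 1) * 32768 with hK
  set C : ℝ := 6 * 20000 ^ 2 with hC
  have hC0 : 0 < 1 + κ * C := by positivity
  -- eventual conditions
  have e1 : ∀ᶠ H : ℕ in atTop, 2 ≤ H := eventually_ge_atTop 2
  have e2 : ∀ᶠ H : ℕ in atTop, F < H := eventually_gt_atTop F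
  have e3 : ∀ᶠ H : ℕ in atTop, bc n A H ^ 2 * (1 + κ * (6 * (20000 * (H : ℝ) ^ 5) ^ 2)) ^ α *
      (H : ℝ) ^ 6 ≤ (1 / 2) ^ n := by
    have h1 : Tendsto (fun H : ℕ => K ^ 2 * (1 + κ * C) ^ α * (H : ℝ) ^ (-(6 - 10 * α))) atTop
        (𝓝 (K ^ 2 * (1 + κ * C) ^ α * 0)) :=
      ((tendsto_rpow_neg_atTop (show 0 < 6 - 10 * α by linarith)).comp hcast).const_mul _
    rw [mul_zero] at h1
    have h2 := h1.eventually (gt_mem_nhds hhalf)
    filter_upwards [h2, e1] with H hH hH2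
    have hH0 : (0 : ℝ) < H := by
      have : 0 < H := by omega
      exact_mod_cast this
    have hH1 : (1 : ℝ) ≤ H := by
      have : 1 ≤ H := by omega
      exact_mod_cast this
    refine le_trans ?_ hH.le
    have h3 : (1 + κ * (6 * (20000 * (H : ℝ) ^ 5) ^ 2)) ^ α ≤
        (1 + κ * C) ^ α * (H : ℝ) ^ (10 * α) := by
      have e : (H : ℝ) ^ (10 * α) = ((H : ℝ) ^ 10) ^ α := by
        rw [← Real.rpow_natCast, ← Real.rpow_mul hH0.le]
        norm_num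
      rw [e, ← Real.mul_rpow hC0.le (by positivity)]
      refine Real.rpow_le_rpow (by positivity) ?_ hα0
      have : 1 ≤ (H : ℝ) ^ 10 := one_le_pow₀ hH1
      rw [hC]
      nlinarith
    have h4 : bc n A H ^ 2 = K ^ 2 * (H : ℝ) ^ (-12 : ℝ) := by
      unfold bc
      rw [Real.rpow_neg hH0.le]
      have : (H : ℝ) ^ (12 : ℝ) = (H : ℝ) ^ 12 := by exact_mod_cast Real.rpow_natCast (H : ℝ) 12
      rw [this, ← hK]
      field_simp
    have h5 : (H : ℝ) ^ 6 = (H : ℝ) ^ (6 : ℝ) := by exact_mod_cast (Real.rpow_natCast (H : ℝ) 6).symm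
    calc bc n A H ^ 2 * (1 + κ * (6 * (20000 * (H : ℝ) ^ 5) ^ 2)) ^ α * (H : ℝ) ^ 6
        ≤ bc n A H ^ 2 * ((1 + κ * C) ^ α * (H : ℝ) ^ (10 * α)) * (H : ℝ) ^ 6 := by gcongr
      _ = K ^ 2 * (1 + κ * C) ^ α * ((H : ℝ) ^ (-12 : ℝ) * (H : ℝ) ^ (10 * α) * (H : ℝ) ^ (6 : ℝ)) := by
          rw [h4, h5]
          ring
      _ = K ^ 2 * (1 + κ * C) ^ α * (H : ℝ) ^ (-(6 - 10 * α)) := by
          rw [← Real.rpow_add hH0, ← Real.rpow_add hH0]
          congr 2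
          ring
  have hinv : Tendsto (fun H : ℕ => ((H : ℝ) ^ 6)⁻¹) atTop (𝓝 0) :=
    tendsto_inv_atTop_zero.comp ((tendsto_pow_atTop (by norm_num)).comp hcast)
  have e4 : ∀ᶠ H : ℕ in atTop, bc n A H ^ 2 * (H : ℝ) ^ 6 * (M + 1) ≤ (1 / 4) ^ n := by
    have h1 := hinv.const_mul (K ^ 2 * (M + 1))
    rw [mul_zero] at h1
    filter_upwards [h1.eventually (gt_mem_nhds (show (0 : ℝ) < (1 / 4) ^ n by positivity)), e1]
      with H hH hH2
    have hH0 : (0 : ℝ) < H := by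
      have : 0 < H := by omega
      exact_mod_cast this
    refine le_trans (le_of_eq ?_) hH.le
    unfold bc
    rw [← hK]
    field_simp
  have hdiv : Tendsto (fun H : ℕ => ((H / 49 : ℕ) : ℝ)) atTop atTop :=
    tendsto_natCast_atTop_atTop.comp (Nat.tendsto_div_const_atTop (by norm_num))
  have e5 : ∀ᶠ H : ℕ in atTop, 9 * (4 / ((H / 49 : ℕ) : ℝ)) ≤ (1 / 2) ^ n := by
    have h1 := (tendsto_inv_atTop_zero.comp hdiv).const_mul (36 : ℝ)
    rw [mul_zero] at h1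
    filter_upwards [h1.eventually (gt_mem_nhds hhalf)] with H hH
    refine le_trans (le_of_eq ?_) hH.le
    simp only [Function.comp]
    ring
  have e6 : ∀ᶠ H : ℕ in atTop, 1 ≤ H / 49 := by
    filter_upwards [eventually_ge_atTop 49] with H hH
    omega
  have e7 : ∀ᶠ H : ℕ in atTop, 2 * π / (κ * (64 * (H : ℝ) ^ 2 + 1)) < 1 / (n + 1) := by
    have h1 : Tendsto (fun H : ℕ => κ * (64 * (H : ℝ) ^ 2 + 1)) atTop atTop := by
      refine Tendsto.const_mul_atTop hκ ?_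
      refine tendsto_atTop_add_const_right _ _ ?_
      refine Tendsto.const_mul_atTop (by norm_num) ?_
      exact (tendsto_pow_atTop (by norm_num)).comp hcast
    have h2 := (tendsto_inv_atTop_zero.comp h1).const_mul (2 * π)
    rw [mul_zero] at h2
    have h3 : (0 : ℝ) < 1 / (n + 1) := by positivity
    filter_upwards [h2.eventually (gt_mem_nhds h3)] with H hH
    rw [div_eq_mul_inv]
    exact hH
  obtain ⟨H, h⟩ := (e1.and (e2.and (e3.and (e4.and (e5.and (e6.and e7)))))).exists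
  exact ⟨H, h.1, h.2.1, h.2.2.1, h.2.2.2.1, h.2.2.2.2.1, h.2.2.2.2.2.1, h.2.2.2.2.2.2⟩

/-- uniform bound for the block function -/
lemma Bl_bdd (κ : ℝ) (H : ℕ) : ∃ C : ℝ, 0 ≤ C ∧ ∀ t x, ‖Bl κ H t x‖ ≤ C := by
  choose C hC using fun k : Ix → ℕ => ez_bdd k
  refine ⟨∑ η ∈ box H, |C (kq H η)|, Finset.sum_nonneg fun _ _ => abs_nonneg _, fun t x => ?_⟩
  unfold Bl
  refine (norm_sum_le _ _).trans (Finset.sum_le_sum fun η _ => ?_)
  rw [norm_mul, ex_norm, one_mul]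
  exact (hC _ x).trans (le_abs_self _)

/-- The data of the gliding hump. -/
structure Hump (κ α : ℝ) where
  H : ℕ → ℕ
  b : ℕ → ℝ
  CC : ℕ → ℝ
  two : ∀ n, 2 ≤ H n
  sep : ∀ m n, m < n → 20000 * H m ^ 5 < H n
  bpos : ∀ n, 0 < b n
  sob : ∀ n, b n ^ 2 * (1 + κ * (6 * (20000 * (H n : ℝ) ^ 5) ^ 2)) ^ α * (H n : ℝ) ^ 6 ≤ (1 / 2) ^ n
  tail : ∀ m n, m < n → b n ^ 2 * (H n : ℝ) ^ 6 * MM (H m) ≤ (1 / 4) ^ n
  bad : ∀ n, 9 * (4 / ((H n / 49 : ℕ) : ℝ)) ≤ (1 / 2) ^ n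
  bad1 : ∀ n, 1 ≤ H n / 49
  time : ∀ n, 2 * π / (κ * (64 * (H n : ℝ) ^ 2 + 1)) < 1 / (n + 1)
  bdd : ∀ n t x, ‖Bl κ (H n) t x‖ ≤ CC n
  main : ∀ n, n + 1 + ∑ m ∈ Finset.range n, b m * CC m ≤ b n * ((H n : ℝ) ^ 6 / 32768)

lemma exists_hump {κ α : ℝ} (hκ : 0 < κ) (hα0 : 0 ≤ α) (hα : α < 3 / 5) :
    Nonempty (Hump κ α) := by
  choose Hf hHf using step_exists hκ hα0 hα
  choose CC hCC0 hCC using Bl_bdd κ
  let st : ℕ → ℕ × ℕ × ℝ := fun n => Nat.rec (0, 0, 0) (fun n s =>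
    (20000 * Hf n s.1 s.2.1 s.2.2 ^ 5, s.2.1 + MM (Hf n s.1 s.2.1 s.2.2),
      s.2.2 + bc n s.2.2 (Hf n s.1 s.2.1 s.2.2) * CC (Hf n s.1 s.2.1 s.2.2))) n
  let H : ℕ → ℕ := fun n => Hf n (st n).1 (st n).2.1 (st n).2.2
  let b : ℕ → ℝ := fun n => bc n (st n).2.2 (H n)
  have hok : ∀ n, StepOK κ α n (st n).1 (st n).2.1 (st n).2.2 (H n) := fun n => hHf _ _ _ _
  have hF : ∀ n, (st (n + 1)).1 = 20000 * H n ^ 5 := fun n => rfl
  have hM : ∀ n, (st (n + 1)).2.1 = (st n).2.1 + MM (H n) := fun n => rfl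
  have hA : ∀ n, (st (n + 1)).2.2 = (st n).2.2 + b n * CC (H n) := fun n => rfl
  have hFmono : Monotone fun n => (st n).1 := by
    refine monotone_nat_of_le_succ fun n => ?_
    show (st n).1 ≤ (st (n + 1)).1
    rw [hF]
    have h1 := (hok n).big
    have h2 : H n ≤ H n ^ 5 := Nat.le_self_pow (by norm_num) _
    omega
  have hMmono : Monotone fun n => (st n).2.1 := by
    refine monotone_nat_of_le_succ fun n => ?_
    show (st n).2.1 ≤ (st (n + 1)).2.1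
    rw [hM]
    omega
  have hAsum : ∀ n, (st n).2.2 = ∑ m ∈ Finset.range n, b m * CC (H m) := by
    intro n
    induction n with
    | zero => rfl
    | succ n ih => rw [hA, ih, Finset.sum_range_succ]
  refine ⟨⟨H, b, fun n => CC (H n), fun n => (hok n).two, ?_, ?_, fun n => (hok n).sob, ?_,
    fun n => (hok n).bad, fun n => (hok n).bad1, fun n => (hok n).time,
    fun n t x => hCC _ _ _, ?_⟩⟩
  · intro m n hmn
    have h1 : (st (m + 1)).1 ≤ (st n).1 := hFmono hmn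
    rw [hF] at h1
    exact lt_of_le_of_lt h1 (hok n).big
  · intro n
    have := (hok n).two
    exact bc_pos _ _ (by omega)
  · intro m n hmn
    have h1 : (st (m + 1)).2.1 ≤ (st n).2.1 := hMmono hmn
    rw [hM] at h1
    have h2 : (MM (H m) : ℝ) ≤ (st n).2.1 + 1 := by
      have : MM (H m) ≤ (st n).2.1 + 1 := by omega
      exact_mod_cast this
    refine le_trans ?_ (hok n).tail
    exact mul_le_mul_of_nonneg_left h2 (by positivity)
  · intro n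
    have h0 : (0 : ℝ) < (H n : ℝ) := by
      have := (hok n).two
      have : 0 < H n := by omega
      exact_mod_cast this
    have e : b n * ((H n : ℝ) ^ 6 / 32768) = |(st n).2.2| + n + 1 := by
      show bc n (st n).2.2 (H n) * ((H n : ℝ) ^ 6 / 32768) = _
      unfold bc
      field_simp
    rw [e, ← hAsum]
    have := le_abs_self (st n).2.2
    linarith

end Pool.Agent.Work.MP_5fc0ff_an
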