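import Pool.Agent.Work.MP_5fc0ff_an.Law

set_option autoImplicit false

open Set Filter Topology MeasureTheory MeasureTheory.Measure
open scoped ENNReal Real

namespace Pool.Agent.Work.MP_5fc0ff_an

/-- The unit sphere of `ℝ⁴`. -/
abbrev S3 := Metric.sphere (0 : E4) 1

/-- The normalised surface measure. -/
noncomputable def surf : Measure S3 :=
  ((volume : Measure E4).toSphere univ)⁻¹ • (volume : Measure E4).toSphere

instance : IsProbabilityMeasure surf := by
  constructor
  unfold surf
  rw [Measure.smul_apply, smul_eq_mul]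
  refine ENNReal.inv_mul_cancel ?_ (measure_ne_top _ _)
  rw [ne_eq, measure_univ_eq_zero]
  exact toSphere_ne_zero _

/-- The angle. -/
noncomputable def ang (x : S3) : ℝ := Real.arccos (x.1 0)

lemma coord_abs_le (x : S3) : |x.1 0| ≤ 1 := by
  have h1 := EuclideanSpace.norm_eq x.1
  have h2 : ‖x.1‖ = 1 := by simp
  rw [h2] at h1
  have h3 : ∑ i, ‖x.1 i‖ ^ 2 = 1 := by
    have := congrArg (fun y => y ^ 2) h1
    simp only [one_pow] at this
    rw [Real.sq_sqrt (by positivity)] at this
    exact this.symm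
  have h4 : ‖x.1 0‖ ^ 2 ≤ 1 := by
    rw [← h3]
    exact Finset.single_le_sum (f := fun i => ‖x.1 i‖ ^ 2) (fun i _ => sq_nonneg _)
      (Finset.mem_univ 0)
  rw [Real.norm_eq_abs] at h4
  nlinarith [abs_nonneg (x.1 0)]

lemma cos_ang (x : S3) : Real.cos (ang x) = x.1 0 := by
  have h := abs_le.mp (coord_abs_le x)
  exact Real.cos_arccos h.1 h.2

lemma coord_measurable : Measurable fun x : S3 => x.1 0 :=
  (by fun_prop : Measurable fun x : E4 => x 0).comp measurable_subtype_coe

lemma ang_measurable : Measurable ang := Real.measurable_arccos.comp coord_measurable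

lemma C3_ne_zero : C3 ≠ 0 := by
  unfold C3
  rw [ne_eq, measure_univ_eq_zero]
  exact toSphere_ne_zero _

lemma C3_ne_top : C3 ≠ ∞ := by
  unfold C3
  exact measure_ne_top _ _

/-- The law of the angle. -/
noncomputable def lam : Measure ℝ :=
  (volume.restrict (Ioo (0 : ℝ) π)).withDensity fun θ => ENNReal.ofReal (2 / π * Real.sin θ ^ 2)

lemma lintegral_sin_sq :
    ∫⁻ θ in Ioo (0 : ℝ) π, ENNReal.ofReal (Real.sin θ ^ 2) = ENNReal.ofReal (π / 2) := by
  rw [restrict_congr_set Ioo_ae_eq_Ioc, ← ofReal_integral_eq_lintegral_ofReal (by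
        have : IntervalIntegrable (fun θ : ℝ => Real.sin θ ^ 2) volume 0 π :=
          Continuous.intervalIntegrable (by fun_prop) _ _
        exact this.1) (Eventually.of_forall fun θ => sq_nonneg _),
      ← intervalIntegral.integral_of_le Real.pi_pos.le, integral_sin_sq]
  simp

lemma surf_lintegral {h : ℝ → ℝ≥0∞} (hh : Measurable h) :
    ∫⁻ x, h (ang x) ∂surf = ∫⁻ θ, h θ ∂lam := by
  have h1 := sphere_law (hh.comp Real.measurable_arccos)
  have h2 := sphere_law (measurable_const (a := (1 : ℝ≥0∞)))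
  simp only [lintegral_one, mul_one] at h2
  rw [lintegral_sin_sq] at h2
  have h3 : ∫⁻ θ in Ioo (0 : ℝ) π, ENNReal.ofReal (Real.sin θ ^ 2) *
      (h ∘ Real.arccos) (Real.cos θ) =
      ∫⁻ θ in Ioo (0 : ℝ) π, ENNReal.ofReal (Real.sin θ ^ 2) * h θ := by
    refine setLIntegral_congr_fun measurableSet_Ioo fun θ hθ => ?_
    simp only [Function.comp]
    rw [Real.arccos_cos hθ.1.le hθ.2.le]
  rw [h3] at h1
  have h4 : ∫⁻ θ, h θ ∂lam =
      ENNReal.ofReal (2 / π) * ∫⁻ θ in Ioo (0 : ℝ) π, ENNReal.ofReal (Real.sin θ ^ 2) * h θ := by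
    unfold lam
    rw [lintegral_withDensity_eq_lintegral_mul _ (by fun_prop) hh,
      ← lintegral_const_mul _ (by fun_prop)]
    refine lintegral_congr fun θ => ?_
    simp only [Pi.mul_apply]
    rw [ENNReal.ofReal_mul (by positivity), mul_assoc]
  unfold surf
  rw [lintegral_smul_measure, h4]
  show ((volume : Measure E4).toSphere univ)⁻¹ * ∫⁻ x : S3, h (Real.arccos (x.1 0))
    ∂(volume : Measure E4).toSphere = _
  have h5 : ∫⁻ x : S3, h (Real.arccos (x.1 0)) ∂(volume : Measure E4).toSphere =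
      C3 * ∫⁻ θ in Ioo (0 : ℝ) π, ENNReal.ofReal (Real.sin θ ^ 2) * h θ := h1
  rw [h5, h2, ← mul_assoc]
  congr 1
  rw [ENNReal.mul_inv (Or.inl C3_ne_zero) (Or.inl C3_ne_top), mul_assoc, mul_comm, mul_assoc,
    ENNReal.mul_inv_cancel C3_ne_zero C3_ne_top, mul_one, ← ENNReal.ofReal_inv_of_pos (by positivity)]
  congr 1
  field_simp

lemma ang_preserving : MeasurePreserving ang surf lam := by
  refine ⟨ang_measurable, ?_⟩
  ext s hs
  rw [Measure.map_apply ang_measurable hs, ← lintegral_indicator_one hs,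
    ← surf_lintegral (measurable_one.indicator hs), ← lintegral_indicator_one (ang_measurable hs)]
  rfl

/-- Integrals of functions of the angle. -/
lemma integral_ang {f : ℝ → ℂ} (hf : Continuous f) :
    ∫ x, f (ang x) ∂surf = ∫ θ in (0 : ℝ)..π, ((2 / π * Real.sin θ ^ 2 : ℝ) : ℂ) * f θ := by
  have h1 : ∫ x, f (ang x) ∂surf = ∫ θ, f θ ∂lam := by
    rw [← ang_preserving.map_eq, integral_map ang_measurable.aemeasurable
      hf.aestronglyMeasurable]
  rw [h1, lam, integral_withDensity_eq_integral_toReal_smul (by fun_prop)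
    (Eventually.of_forall fun _ => ENNReal.ofReal_lt_top),
    intervalIntegral.integral_of_le Real.pi_pos.le, integral_Ioc_eq_integral_Ioo]
  refine setIntegral_congr_fun measurableSet_Ioo fun θ _ => ?_
  rw [ENNReal.toReal_ofReal (by positivity)]
  rfl

lemma integral_exp_int {N : ℤ} (hN : N ≠ 0) :
    ∫ θ in (0 : ℝ)..π, Complex.exp (2 * Complex.I * N * θ) = 0 := by
  have hc : (2 * Complex.I * N : ℂ) ≠ 0 := by
    simp [hN]
  rw [integral_exp_mul_complex hc]
  have h1 : Complex.exp (2 * Complex.I * N * (π : ℝ)) = 1 := by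
    rw [Complex.exp_eq_one_iff]
    exact ⟨N, by ring⟩
  rw [h1]
  simp

/-- character integrals -/
lemma integral_char {N : ℤ} (hN : 2 ≤ |N|) :
    ∫ x, Complex.exp (2 * Complex.I * N * (ang x : ℂ)) ∂surf = 0 := by
  rw [integral_ang (f := fun θ => Complex.exp (2 * Complex.I * N * (θ : ℂ))) (by fun_prop)]
  have h1 : ∀ θ : ℝ, ((2 / π * Real.sin θ ^ 2 : ℝ) : ℂ) * Complex.exp (2 * Complex.I * N * θ) =
      (1 / π : ℂ) * Complex.exp (2 * Complex.I * (N : ℤ) * θ) -
      (1 / (2 * π) : ℂ) * Complex.exp (2 * Complex.I * ((N + 1 : ℤ) : ℂ) * θ) -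
      (1 / (2 * π) : ℂ) * Complex.exp (2 * Complex.I * ((N - 1 : ℤ) : ℂ) * θ) := by
    intro θ
    have h2 : Complex.exp (2 * Complex.I * ((N + 1 : ℤ) : ℂ) * θ) =
        Complex.exp (2 * Complex.I * (N : ℤ) * θ) * Complex.exp (2 * Complex.I * θ) := by
      rw [← Complex.exp_add]
      congr 1
      push_cast
      ring
    have h3 : Complex.exp (2 * Complex.I * ((N - 1 : ℤ) : ℂ) * θ) =
        Complex.exp (2 * Complex.I * (N : ℤ) * θ) * Complex.exp (-(2 * Complex.I * θ)) := by
      rw [← Complex.exp_add]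
      congr 1
      push_cast
      ring
    have h4 : ((Real.sin θ ^ 2 : ℝ) : ℂ) =
        (2 - Complex.exp (2 * Complex.I * θ) - Complex.exp (-(2 * Complex.I * θ))) / 4 := by
      push_cast
      rw [Complex.sin]
      have e1 : Complex.exp (2 * Complex.I * θ) = Complex.exp (θ * Complex.I) ^ 2 := by
        rw [← Complex.exp_nat_mul]; congr 1; push_cast; ring
      have e2 : Complex.exp (-(2 * Complex.I * θ)) = Complex.exp (-θ * Complex.I) ^ 2 := by
        rw [← Complex.exp_nat_mul]; congr 1; push_cast; ring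
      have e3 : Complex.exp (-θ * Complex.I) * Complex.exp (θ * Complex.I) = 1 := by
        rw [← Complex.exp_add]; simp
      rw [e1, e2, div_pow, mul_pow, Complex.I_sq]
      linear_combination (1 / 2) * e3
    have h5 : ((2 / π * Real.sin θ ^ 2 : ℝ) : ℂ) = (2 / π : ℂ) * ((Real.sin θ ^ 2 : ℝ) : ℂ) := by
      push_cast
      ring
    rw [h5, h4, h2, h3]
    have hπ : (π : ℂ) ≠ 0 := by exact_mod_cast Real.pi_ne_zero
    field_simp
    ring
  simp_rw [h1]
  have hi : ∀ M : ℤ, IntervalIntegrable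
      (fun θ : ℝ => Complex.exp (2 * Complex.I * (M : ℂ) * θ)) volume 0 π := fun M =>
    Continuous.intervalIntegrable (by fun_prop) _ _
  rw [intervalIntegral.integral_sub (((hi N).const_mul _).sub ((hi (N + 1)).const_mul _))
    ((hi (N - 1)).const_mul _), intervalIntegral.integral_sub ((hi N).const_mul _)
    ((hi (N + 1)).const_mul _), intervalIntegral.integral_const_mul,
    intervalIntegral.integral_const_mul, intervalIntegral.integral_const_mul,
    integral_exp_int, integral_exp_int, integral_exp_int]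
  · simp
  · intro h
    have : N = 1 := by linarith
    rw [this] at hN
    norm_num at hN
  · intro h
    have : N = -1 := by linarith
    rw [this] at hN
    norm_num at hN
  · intro h
    rw [h] at hN
    norm_num at hN

/-- zonal functions on the three-sphere -/
noncomputable def zon (n : ℕ) (x : S3) : ℝ := (Polynomial.Chebyshev.U ℝ n).eval (x.1 0)

lemma zon_mul_sin (n : ℕ) (x : S3) :
    zon n x * Real.sin (ang x) = Real.sin ((n + 1) * ang x) := by
  have := Polynomial.Chebyshev.U_real_cos (ang x) (n : ℤ)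
  rw [cos_ang] at this
  exact_mod_cast this

lemma integral_sin_sin (m n : ℕ) :
    ∫ θ in (0 : ℝ)..π, Real.sin ((m + 1) * θ) * Real.sin ((n + 1) * θ) =
      if m = n then π / 2 else 0 := by
  have h1 : ∀ θ : ℝ, Real.sin ((m + 1) * θ) * Real.sin ((n + 1) * θ) =
      1 / 2 * Real.cos (((m : ℝ) - n) * θ) - 1 / 2 * Real.cos (((m : ℝ) + n + 2) * θ) := by
    intro θ
    have e1 : ((m : ℝ) - n) * θ = (m + 1) * θ - (n + 1) * θ := by ring
    have e2 : ((m : ℝ) + n + 2) * θ = (m + 1) * θ + (n + 1) * θ := by ring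
    rw [e1, e2, Real.cos_sub, Real.cos_add]
    ring
  simp_rw [h1]
  have hcos : ∀ c : ℝ, c ≠ 0 → (∃ k : ℤ, c = k) → ∫ θ in (0 : ℝ)..π, Real.cos (c * θ) = 0 := by
    rintro c hc ⟨k, rfl⟩
    rw [intervalIntegral.integral_comp_mul_left (f := Real.cos) hc, integral_cos]
    simp [Real.sin_int_mul_pi]
  have hi : ∀ c : ℝ, IntervalIntegrable (fun θ : ℝ => 1 / 2 * Real.cos (c * θ)) volume 0 π :=
    fun c => Continuous.intervalIntegrable (by fun_prop) _ _
  rw [intervalIntegral.integral_sub (hi _) (hi _), intervalIntegral.integral_const_mul,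
    intervalIntegral.integral_const_mul, hcos ((m : ℝ) + n + 2) (by positivity)
      ⟨(m : ℤ) + n + 2, by push_cast; ring⟩]
  split_ifs with h
  · subst h
    simp
    ring
  · rw [hcos ((m : ℝ) - n) (sub_ne_zero.mpr (by exact_mod_cast h)) ⟨(m : ℤ) - n, by push_cast; ring⟩]
    simp

/-- orthonormality of the zonal functions -/
lemma integral_zon (m n : ℕ) :
    ∫ x, ((zon m x : ℝ) : ℂ) * ((zon n x : ℝ) : ℂ) ∂surf = if m = n then 1 else 0 := by
  have h1 : ∀ x : S3, ((zon m x : ℝ) : ℂ) * ((zon n x : ℝ) : ℂ) =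
      (fun θ : ℝ => (((Polynomial.Chebyshev.U ℝ m).eval (Real.cos θ) *
        (Polynomial.Chebyshev.U ℝ n).eval (Real.cos θ) : ℝ) : ℂ)) (ang x) := by
    intro x
    simp only [cos_ang, zon]
    push_cast
    rfl
  simp_rw [h1]
  rw [integral_ang (f := fun θ : ℝ => (((Polynomial.Chebyshev.U ℝ m).eval (Real.cos θ) *
        (Polynomial.Chebyshev.U ℝ n).eval (Real.cos θ) : ℝ) : ℂ)) (by
    refine Complex.continuous_ofReal.comp ?_
    exact ((Polynomial.continuous _).comp Real.continuous_cos).mul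
      ((Polynomial.continuous _).comp Real.continuous_cos))]
  have h2 : ∀ θ : ℝ, ((2 / π * Real.sin θ ^ 2 : ℝ) : ℂ) *
      (((Polynomial.Chebyshev.U ℝ m).eval (Real.cos θ) *
        (Polynomial.Chebyshev.U ℝ n).eval (Real.cos θ) : ℝ) : ℂ) =
      ((2 / π * (Real.sin ((m + 1) * θ) * Real.sin ((n + 1) * θ)) : ℝ) : ℂ) := by
    intro θ
    rw [← Complex.ofReal_mul]
    congr 1
    have e1 := Polynomial.Chebyshev.U_real_cos θ (m : ℤ)
    have e2 := Polynomial.Chebyshev.U_real_cos θ (n : ℤ)
    push_cast at e1 e2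
    rw [← e1, ← e2]
    ring
  simp_rw [h2]
  rw [intervalIntegral.integral_ofReal, intervalIntegral.integral_const_mul, integral_sin_sin]
  split_ifs
  · have : 2 / π * (π / 2) = 1 := by field_simp
    rw [this]
    simp
  · simp

end Pool.Agent.Work.MP_5fc0ff_an
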